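import Mathlib
import Pool.Agent.Helper354.Pcp.Build
import Pool.Agent.Helper354.Pcp.Key2
import Pool.Agent.Helper354.Pcp.Rigid

/-!
Squarefree `s`: a recursive characterisation of the groups of order `s ^ 2` with three subgroups
of order `s` with pairwise trivial intersections.
-/

set_option autoImplicit false

namespace Pool.Agent.Results.MP_53dcbc_co.ASquarefreeRecursion

open Subgroup
open scoped commutatorElement
open Pool.Agent.Helper354.Pcp

universe u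

theorem rigid2 {T : Type u} [Group T] {q : ℕ} [hq : Fact q.Prime]
    (hT : Nat.card T = q) (f : T →* T) (hf : Function.Injective f) (x : T) :
    f^[q - 1] x = x := by
  have hc : IsCyclic T := isCyclic_of_prime_card (p := q) hT
  have hfin : Finite T := Nat.finite_of_card_ne_zero (by rw [hT]; exact hq.out.ne_zero)
  obtain ⟨m, hm⟩ := MonoidHom.map_cyclic f
  have hk : ∀ (k : ℕ) (y : T), f^[k] y = y ^ (m ^ k) := by
    intro k
    induction k with
    | zero => intro y; simp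
    | succ k ih =>
      intro y
      rw [Function.iterate_succ_apply, ih, hm, ← zpow_mul, pow_succ, mul_comm]
  obtain ⟨y, hy⟩ : ∃ y : T, y ≠ 1 := by
    have : Nontrivial T := by
      rw [← Finite.one_lt_card_iff_nontrivial, hT]
      exact hq.out.one_lt
    exact exists_ne 1
  have hyo : y ^ q = 1 := by rw [← hT]; exact pow_card_eq_one'
  have hm0 : (m : ZMod q) ≠ 0 := by
    intro h0
    rw [ZMod.intCast_zmod_eq_zero_iff_dvd] at h0
    obtain ⟨k, hk⟩ := h0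
    have h1 : f y = 1 := by
      rw [hm, hk, zpow_mul, zpow_natCast, hyo, one_zpow]
    exact hy (hf (by rw [h1, map_one]))
  have h3 : (m : ZMod q) ^ (q - 1) = 1 := ZMod.pow_card_sub_one_eq_one hm0
  have h6 : m ^ (q - 1) ≡ 1 [ZMOD q] := by
    rw [← ZMod.intCast_eq_intCast_iff]; push_cast; exact h3
  rw [hk]
  have h7 : x ^ (m ^ (q - 1)) = x ^ (1 : ℤ) := by
    rw [zpow_eq_zpow_iff_modEq]
    have h8 : orderOf x ∣ q := by rw [← hT]; exact orderOf_dvd_natCard x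
    exact h6.of_dvd (by exact_mod_cast h8)
  rw [h7, zpow_one]

theorem cent2 {G : Type u} [Group G] [Finite G] (Q A : Subgroup G) [hQn : Q.Normal]
    {q : ℕ} [hq : Fact q.Prime] (hQ2 : Nat.card Q = q ^ 2)
    (hQi : ¬ q ∣ Q.index)
    (hAQ : Nat.card (A ⊓ Q : Subgroup G) = q) (u : G) (hu : u ∈ A) :
    ∀ x ∈ Q, Commute (u ^ (q - 1)) x := by
  have hQp : IsPGroup q Q := IsPGroup.of_card hQ2
  have hQc : ∀ x ∈ Q, ∀ y ∈ Q, x * y = y * x := by
    have h1 := IsPGroup.isMulCommutative_of_card_eq_prime_sq hQ2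
    intro x hx y hy
    exact congrArg Subtype.val (h1.is_comm.comm ⟨x, hx⟩ ⟨y, hy⟩)
  let T : Subgroup G := A ⊓ Q
  have hTconj : ∀ z ∈ T, u * z * u⁻¹ ∈ T := fun z hz =>
    ⟨A.mul_mem (A.mul_mem hu hz.1) (A.inv_mem hu), hQn.conj_mem z hz.2 u⟩
  have hc1 : ∀ z ∈ T, Commute (u ^ (q - 1)) z := by
    intro z hz
    let f : T →* T :=
      { toFun := fun z => ⟨u * z * u⁻¹, hTconj z z.2⟩
        map_one' := by apply Subtype.ext; simp
        map_mul' := by
          intro a b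
          apply Subtype.ext
          show u * ((a : G) * b) * u⁻¹ = (u * a * u⁻¹) * (u * b * u⁻¹)
          group }
    have hfi : Function.Injective f := by
      intro a b hab
      have h1 : u * (a : G) * u⁻¹ = u * b * u⁻¹ := congrArg Subtype.val hab
      apply Subtype.ext
      exact mul_left_cancel (mul_right_cancel h1)
    have hfk : ∀ (k : ℕ) (y : T), ((f^[k] y : T) : G) = u ^ k * y * (u ^ k)⁻¹ := by
      intro k
      induction k with
      | zero => intro y; simp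
      | succ k ih =>
        intro y
        rw [Function.iterate_succ_apply, ih]
        show u ^ k * (u * (y : G) * u⁻¹) * (u ^ k)⁻¹ = u ^ (k + 1) * y * (u ^ (k + 1))⁻¹
        rw [pow_succ]; group
    have h1 := rigid2 hAQ f hfi ⟨z, hz⟩
    have h2 : u ^ (q - 1) * z * (u ^ (q - 1))⁻¹ = z := by
      rw [← hfk (q - 1) ⟨z, hz⟩, h1]
    show u ^ (q - 1) * z = z * u ^ (q - 1)
    calc u ^ (q - 1) * z = (u ^ (q - 1) * z * (u ^ (q - 1))⁻¹) * u ^ (q - 1) := by group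
      _ = z * u ^ (q - 1) := by rw [h2]
  let N : Subgroup Q := A.subgroupOf Q
  have hNn : N.Normal := by
    constructor
    intro a ha b
    have : b * a * b⁻¹ = a := by
      have h1 : b * a = a * b := Subtype.ext (hQc b b.2 a a.2)
      rw [h1]; group
    rw [this]; exact ha
  have hNc : Nat.card N = q := by
    rw [← Subgroup.card_map_of_injective (K := A.subgroupOf Q) Q.subtype_injective,
      Subgroup.subgroupOf_map_subtype, hAQ]
  have hNi : Nat.card (Q ⧸ N) = q := by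
    have h1 := N.card_mul_index
    rw [hNc, hQ2, sq] at h1
    exact Nat.eq_of_mul_eq_mul_left hq.out.pos h1
  have hle : N ≤ N.comap (MulAut.conjNormal u : MulAut Q).toMonoidHom := by
    intro z hz
    have hz' : (z : G) ∈ A := hz
    show ((MulAut.conjNormal u z : Q) : G) ∈ A
    rw [MulAut.conjNormal_apply]
    exact A.mul_mem (A.mul_mem hu hz') (A.inv_mem hu)
  let F : Q ⧸ N →* Q ⧸ N := QuotientGroup.map N N (MulAut.conjNormal u : MulAut Q).toMonoidHom hle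
  have hFi : Function.Injective F := by
    rw [injective_iff_map_eq_one]
    intro y hy
    obtain ⟨y, rfl⟩ := QuotientGroup.mk_surjective y
    have h1 : (QuotientGroup.mk (MulAut.conjNormal u y) : Q ⧸ N) = 1 := hy
    rw [QuotientGroup.eq_one_iff] at h1 ⊢
    have h2 : ((MulAut.conjNormal u y : Q) : G) ∈ A := h1
    rw [MulAut.conjNormal_apply] at h2
    show (y : G) ∈ A
    have h3 : (y : G) = u⁻¹ * (u * y * u⁻¹) * u := by group
    rw [h3]
    exact A.mul_mem (A.mul_mem (A.inv_mem hu) h2) hu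
  have hFk : ∀ (k : ℕ) (y : Q), F^[k] (QuotientGroup.mk y) =
      QuotientGroup.mk (MulAut.conjNormal (u ^ k) y) := by
    intro k
    induction k with
    | zero => intro y; simp
    | succ k ih =>
      intro y
      rw [Function.iterate_succ_apply]
      have h1 : F (QuotientGroup.mk y) = QuotientGroup.mk (MulAut.conjNormal u y) := rfl
      rw [h1, ih, pow_succ, map_mul, MulAut.mul_apply]
  have hc2 : ∀ x ∈ Q, ⁅u ^ (q - 1), x⁆ ∈ A := by
    intro x hx
    have h1 := rigid2 hNi F hFi (QuotientGroup.mk ⟨x, hx⟩)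
    rw [hFk, QuotientGroup.eq] at h1
    have h3 : (((MulAut.conjNormal (u ^ (q - 1)) (⟨x, hx⟩ : Q))⁻¹ * ⟨x, hx⟩ : Q) : G) ∈ A := h1
    have h4 : (((MulAut.conjNormal (u ^ (q - 1)) (⟨x, hx⟩ : Q))⁻¹ * ⟨x, hx⟩ : Q) : G) =
        (u ^ (q - 1) * x * (u ^ (q - 1))⁻¹)⁻¹ * x := by
      simp only [Subgroup.coe_mul, Subgroup.coe_inv, MulAut.conjNormal_apply]
    rw [h4] at h3
    have h5 : ⁅u ^ (q - 1), x⁆ = ((u ^ (q - 1) * x * (u ^ (q - 1))⁻¹)⁻¹ * x)⁻¹ := by
      have h1 : u ^ (q - 1) * x * (u ^ (q - 1))⁻¹ ∈ Q := hQn.conj_mem x hx _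
      rw [mul_inv_rev, inv_inv, hQc _ (Q.inv_mem hx) _ h1]
      rfl
    rw [h5]
    exact A.inv_mem h3
  intro x hx
  have hwx : ⁅u ^ (q - 1), x⁆ ∈ Q := by
    rw [commutatorElement_def]
    exact Q.mul_mem (hQn.conj_mem x hx _) (Q.inv_mem hx)
  exact trick Q hQp hQi _ x hwx (hc1 _ ⟨hc2 x hx, hwx⟩) (fun m hm => hQc m hm x hx)

theorem facts (s q : ℕ) (hsq : Squarefree s) (hq : q.Prime) (hqs : q ∣ s)
    (hqmax : ∀ p : ℕ, p.Prime → p ∣ s → p ≤ q)
    (G : Type u) [Group G] [Finite G] (hG : Nat.card G = s ^ 2)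
    (U : Fin 3 → Subgroup G) (hU : ∀ i, Nat.card (U i) = s)
    (hd : ∀ i j, i ≠ j → U i ⊓ U j = ⊥) :
    ∃ (Q : Subgroup G) (_ : Q.Normal) (m : ℕ), s = m * q ∧ Nat.card Q = q ^ 2 ∧
      ¬ q ∣ Q.index ∧ (∀ i, Nat.card (U i ⊓ Q : Subgroup G) = q) ∧
      commutator G ≤ centralizer (Q : Set G) ∧
      (∀ i, Nat.card ((U i).map (QuotientGroup.mk' Q)) = m) ∧
      (∀ i j, i ≠ j →
        (U i).map (QuotientGroup.mk' Q) ⊓ (U j).map (QuotientGroup.mk' Q) = ⊥) ∧
      (∀ i j, i ≠ j → ∀ g : G, ∃ x ∈ U i, ∃ y ∈ U j, g = x * y) := by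
  have hs0 : 0 < s := Nat.pos_of_ne_zero hsq.ne_zero
  have hsp : ∀ p : ℕ, p.Prime → ¬ p ^ 2 ∣ s := by
    intro p hp h
    have h1 := hsq p (by rwa [← sq])
    exact hp.one_lt.ne' (Nat.isUnit_iff.1 h1)
  have : Fact q.Prime := ⟨hq⟩
  have hq2 := hq.two_le
  obtain ⟨Q, hQn, m, t, hmt, hm, ht, hQc, hQU, -⟩ :=
    main (q - 1) s hs0 (fun p hp _ => hsp p hp) G hG U hU hd
  have hqt : q ∣ t := by
    rw [hmt] at hqs
    refine (hq.dvd_mul.1 hqs).resolve_left (fun h => ?_)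
    have := hm q hq h
    omega
  have htq : t = q := by
    obtain ⟨c, hc⟩ := hqt
    by_cases hc1 : c = 1
    · rw [hc, hc1, mul_one]
    exfalso
    obtain ⟨r, hr, hrc⟩ := Nat.exists_prime_and_dvd hc1
    have h1 : r ∣ t := by rw [hc]; exact hrc.trans (dvd_mul_left _ _)
    have h2 := ht r hr h1
    have h3 := hqmax r hr (by rw [hmt]; exact h1.trans (dvd_mul_left _ _))
    have h4 : r = q := by omega
    apply hsp q hq
    rw [h4] at hrc
    rw [hmt, hc, sq]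
    exact (mul_dvd_mul_left q hrc).trans (dvd_mul_left _ _)
  rw [htq] at hQc hQU hmt
  have hm0 : 0 < m := by
    rcases Nat.eq_zero_or_pos m with h | h
    · rw [h] at hmt; omega
    · exact h
  have hmsq : Squarefree m := hsq.squarefree_of_dvd ⟨q, hmt⟩
  have hqm : ¬ q ∣ m := by
    intro h
    apply hsp q hq
    rw [hmt, sq]
    exact mul_dvd_mul_right h q
  have hQi : Q.index = m ^ 2 := by
    have h1 := Q.card_mul_index
    rw [hQc, hG, hmt, mul_pow, mul_comm (m ^ 2)] at h1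
    exact Nat.eq_of_mul_eq_mul_left (by positivity) h1
  have hqi : ¬ q ∣ Q.index := by
    rw [hQi]; intro h; exact hqm (hq.dvd_of_dvd_pow h)
  have hfac : ∀ i j, i ≠ j → ∀ g : G, ∃ x ∈ U i, ∃ y ∈ U j, g = x * y := fun i j hij =>
    fac_of_pcp (by rw [hU i, hU j, hG, sq]) (hd i j hij)
  have hT : Tower G := by
    intro n
    obtain ⟨K, hK, m', t', hmt', hm', ht', hKc, -, -⟩ :=
      main n s hs0 (fun p hp _ => hsp p hp) G hG U hU hd
    refine ⟨K, hK, fun p hp h => ht' p hp (hp.dvd_of_dvd_pow (by rwa [hKc] at h)), ?_⟩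
    have ht'0 : 0 < t' := by
      rcases Nat.eq_zero_or_pos t' with h | h
      · rw [h] at hmt'; omega
      · exact h
    have hKi : K.index = m' ^ 2 := by
      have h1 := K.card_mul_index
      rw [hKc, hG, hmt', mul_pow, mul_comm (m' ^ 2)] at h1
      exact Nat.eq_of_mul_eq_mul_left (by positivity) h1
    intro p hp h
    rw [hKi] at h
    exact hm' p hp (hp.dvd_of_dvd_pow h)
  -- the action on Q is abelian
  let C : Subgroup G := centralizer (Q : Set G)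
  have hCn : C.Normal := inferInstance
  have hcomm := triple _ (G ⧸ C) rfl (hT.map (QuotientGroup.mk' C)
      (QuotientGroup.mk'_surjective C))
    (fun i => (U i).map (QuotientGroup.mk' C))
    (fun i => Squarefree.squarefree_of_dvd (Subgroup.card_map_dvd _ _) (by rw [hU i]; exact hsq))
    (by
      rintro i _ ⟨x, hx, rfl⟩ _ ⟨y, hy, rfl⟩
      have h1 : ⁅x, y⁆ ∈ C := by
        rw [mem_centralizer_iff]
        intro z hz
        exact (comm_centralizes Q (U i) hQc hqi (hQU i) x y hx hy z hz).eq.symm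
      have h2 : QuotientGroup.mk' C ⁅x, y⁆ = 1 := (QuotientGroup.eq_one_iff _).2 h1
      rw [map_commutatorElement] at h2
      exact commutatorElement_eq_one_iff_mul_comm.1 h2)
    (by
      intro i j hij g
      obtain ⟨g, rfl⟩ := QuotientGroup.mk'_surjective C g
      obtain ⟨x, hx, y, hy, rfl⟩ := hfac i j hij g
      exact ⟨_, ⟨x, hx, rfl⟩, _, ⟨y, hy, rfl⟩, map_mul _ _ _⟩)
  have hDC : commutator G ≤ C := by
    rw [commutator_def, Subgroup.commutator_le]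
    intro g _ h _
    rw [← QuotientGroup.eq_one_iff]
    have h2 : QuotientGroup.mk' C ⁅g, h⁆ = 1 := by
      rw [map_commutatorElement]
      exact commutatorElement_eq_one_iff_mul_comm.2 (hcomm _ _)
    exact h2
  -- the quotient
  have hGQ : Nat.card (G ⧸ Q) = m ^ 2 := hQi
  have hUQ : ∀ i, Nat.card ((U i).map (QuotientGroup.mk' Q)) = m := by
    intro i
    rw [← Subgroup.relIndex_ker, QuotientGroup.ker_mk']
    have h1 : Nat.card (Q.subgroupOf (U i)) = q := by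
      rw [← Subgroup.card_map_of_injective (K := Q.subgroupOf (U i)) (U i).subtype_injective,
        Subgroup.subgroupOf_map_subtype, inf_comm, hQU i]
    have h2 := (Q.subgroupOf (U i)).card_mul_index
    rw [h1, hU i, hmt, mul_comm m q] at h2
    exact Nat.eq_of_mul_eq_mul_left hq.pos h2
  have hdQ : ∀ i j, i ≠ j →
      (U i).map (QuotientGroup.mk' Q) ⊓ (U j).map (QuotientGroup.mk' Q) = ⊥ := by
    intro i j hij
    have h1 := card_prod ((U i).map (QuotientGroup.mk' Q)) ((U j).map (QuotientGroup.mk' Q)) (by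
      intro g
      obtain ⟨g, rfl⟩ := QuotientGroup.mk'_surjective Q g
      obtain ⟨x, hx, y, hy, rfl⟩ := hfac i j hij g
      exact ⟨_, ⟨x, hx, rfl⟩, _, ⟨y, hy, rfl⟩, map_mul _ _ _⟩)
    rw [hUQ i, hUQ j, hGQ, ← sq] at h1
    apply Subgroup.card_eq_one.1
    have h2 : 0 < m ^ 2 := by positivity
    exact (Nat.eq_of_mul_eq_mul_right h2 (by rw [one_mul]; exact h1)).symm
  exact ⟨Q, hQn, m, hmt, hQc, hqi, hQU, hDC, hUQ, hdQ, hfac⟩

theorem build3 {G : Type u} [Group G] [Finite G] (P Q : Subgroup G) (hPQ : P ⊓ Q = ⊥) {m q : ℕ}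
    (X H : Fin 3 → Subgroup G) (hXQ : ∀ i, X i ≤ Q) (hHP : ∀ i, H i ≤ P)
    (hX : ∀ i, Nat.card (X i) = q) (hH : ∀ i, Nat.card (H i) = m)
    (hXd : ∀ i j, i ≠ j → X i ⊓ X j = ⊥) (hHd : ∀ i j, i ≠ j → H i ⊓ H j = ⊥)
    (hn : ∀ i, ∀ k ∈ H i, ∀ x ∈ X i, k * x * k⁻¹ ∈ X i) :
    ∃ U : Fin 3 → Subgroup G, (∀ i, Nat.card (U i) = m * q) ∧ ∀ i j, i ≠ j → U i ⊓ U j = ⊥ := by
  refine ⟨fun i => prodSub (X i) (H i) (hn i), ?_, ?_⟩
  · intro i
    rw [card_prodSub]
    · rw [hX i, hH i, mul_comm]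
    · rw [eq_bot_iff, ← hPQ]
      intro z hz
      exact ⟨hHP i hz.2, hXQ i hz.1⟩
  · intro i j hij
    rw [eq_bot_iff]
    rintro z ⟨⟨x, hx, k, hk, hz1⟩, ⟨y, hy, l, hl, hz2⟩⟩
    have h1 : x * k = y * l := by rw [← hz1, ← hz2]
    have h2 : y⁻¹ * x = l * k⁻¹ := by
      have : y⁻¹ * (x * k) * k⁻¹ = y⁻¹ * (y * l) * k⁻¹ := by rw [h1]
      calc y⁻¹ * x = y⁻¹ * (x * k) * k⁻¹ := by group
        _ = y⁻¹ * (y * l) * k⁻¹ := this
        _ = l * k⁻¹ := by group
    have h3 : y⁻¹ * x ∈ P ⊓ Q :=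
      ⟨by rw [h2]; exact P.mul_mem (hHP j hl) (P.inv_mem (hHP i hk)),
        Q.mul_mem (Q.inv_mem (hXQ j hy)) (hXQ i hx)⟩
    rw [hPQ, mem_bot] at h3
    have h4 : x = y := (inv_mul_eq_one.1 h3).symm
    rw [h3] at h2
    have h5 : l = k := mul_inv_eq_one.1 h2.symm
    have h6 : x ∈ X i ⊓ X j := ⟨hx, by rw [h4]; exact hy⟩
    have h7 : k ∈ H i ⊓ H j := ⟨hk, by rw [← h5]; exact hl⟩
    rw [hXd i j hij, mem_bot] at h6
    rw [hHd i j hij, mem_bot] at h7
    rw [mem_bot, hz1, h6, h7, one_mul]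

theorem backward (m q : ℕ) (hq : q.Prime) (hqm : ¬ q ∣ m)
    (G : Type u) [Group G] [Finite G] (hm0 : 0 < m) (hG : Nat.card G = (m * q) ^ 2)
    (Q L M : Subgroup G) (hQn : Q.Normal) (hLn : L.Normal) (hMn : M.Normal)
    (hQ2 : Nat.card Q = q ^ 2) (hL : Nat.card L = q) (hM : Nat.card M = q)
    (hLQ : L ≤ Q) (hMQ : M ≤ Q) (hLM : L ⊓ M = ⊥)
    (A : Fin 3 → Subgroup (G ⧸ Q)) (hA : ∀ i, Nat.card (A i) = m)
    (hAd : ∀ i j, i ≠ j → A i ⊓ A j = ⊥)
    (hsc : ∀ g : G, (QuotientGroup.mk g : G ⧸ Q) ∈ A 0 → ∀ y ∈ Q, g * y * g⁻¹ ∈ zpowers y) :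
    ∃ U : Fin 3 → Subgroup G, (∀ i, Nat.card (U i) = m * q) ∧ ∀ i j, i ≠ j → U i ⊓ U j = ⊥ := by
  have : Fact q.Prime := ⟨hq⟩
  have hcop : Nat.Coprime q m := hq.coprime_iff_not_dvd.2 hqm
  have hQi : Q.index = m ^ 2 := by
    have h1 := Q.card_mul_index
    rw [hQ2, hG, mul_pow, mul_comm (m ^ 2)] at h1
    exact Nat.eq_of_mul_eq_mul_left (pow_pos hq.pos 2) h1
  have hQm : ∀ x y : Q, x * y = y * x :=
    (IsPGroup.isMulCommutative_of_card_eq_prime_sq hQ2).is_comm.comm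
  obtain ⟨T, hT⟩ := Subgroup.exists_right_complement'_of_coprime (N := Q) (by
    rw [hQ2, hQi]; exact Nat.Coprime.pow _ _ hcop)
  have hTc : Nat.card T = m ^ 2 := by rw [← hQi, hT.symm.index_eq_card]
  have hTQ : T ⊓ Q = ⊥ := by rw [inf_comm]; exact disjoint_iff.1 hT.disjoint
  let f : T →* G ⧸ Q := (QuotientGroup.mk' Q).comp T.subtype
  have hfi : Function.Injective f := by
    rw [injective_iff_map_eq_one]
    intro t ht
    have h1 : (t : G) ∈ Q := (QuotientGroup.eq_one_iff _).1 ht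
    have h2 : (t : G) ∈ T ⊓ Q := ⟨t.2, h1⟩
    rw [hTQ, mem_bot] at h2
    exact Subtype.ext h2
  have hfb : Function.Bijective f :=
    (Nat.bijective_iff_injective_and_card f).2 ⟨hfi, by rw [hTc]; exact hQi.symm⟩
  have hone : ∀ K : Subgroup G, Nat.card K = q → ∃ a : G, orderOf a = q ∧ zpowers a = K := by
    intro K hK
    obtain ⟨x, hx⟩ := exists_prime_orderOf_dvd_card' (G := K) q (by rw [hK])
    have hx' : orderOf (x : G) = q := by rw [Subgroup.orderOf_coe, hx]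
    refine ⟨x, hx', ?_⟩
    apply Subgroup.eq_of_le_of_card_ge
    · rw [zpowers_le]; exact x.2
    · rw [hK, Nat.card_zpowers, hx']
  obtain ⟨a, hao, haL⟩ := hone L hL
  obtain ⟨b, hbo, hbM⟩ := hone M hM
  have haQ : a ∈ Q := hLQ (by rw [← haL]; exact mem_zpowers a)
  have hbQ : b ∈ Q := hMQ (by rw [← hbM]; exact mem_zpowers b)
  have habc : Commute a b := congrArg Subtype.val (hQm ⟨a, haQ⟩ ⟨b, hbQ⟩)
  rw [← haL, ← hbM] at hLM
  obtain ⟨habo, hi1, hi2⟩ := third2 q a b habc hao hbo hLM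
  have e01 : zpowers (a * b) ⊓ zpowers a = ⊥ := by rw [inf_comm]; exact hi1
  have e02 : zpowers (a * b) ⊓ zpowers b = ⊥ := by rw [inf_comm]; exact hi2
  have e21 : zpowers b ⊓ zpowers a = ⊥ := by rw [inf_comm]; exact hLM
  refine build3 T Q hTQ ![zpowers (a * b), zpowers a, zpowers b]
    (fun i => ((A i).comap f).map T.subtype) ?_ ?_ ?_ ?_ ?_ ?_ ?_
  · intro i
    fin_cases i
    · show zpowers (a * b) ≤ Q
      rw [zpowers_le]; exact Q.mul_mem haQ hbQ
    · show zpowers a ≤ Q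
      rw [zpowers_le]; exact haQ
    · show zpowers b ≤ Q
      rw [zpowers_le]; exact hbQ
  · intro i
    exact Subgroup.map_subtype_le _
  · intro i
    fin_cases i
    · show Nat.card (zpowers (a * b)) = q
      rw [Nat.card_zpowers]; exact habo
    · show Nat.card (zpowers a) = q
      rw [Nat.card_zpowers]; exact hao
    · show Nat.card (zpowers b) = q
      rw [Nat.card_zpowers]; exact hbo
  · intro i
    rw [Subgroup.card_map_of_injective T.subtype_injective,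
      ← Subgroup.card_map_of_injective (K := (A i).comap f) hfi,
      Subgroup.map_comap_eq_self_of_surjective hfb.2, hA i]
  · intro i j hij
    fin_cases i <;> fin_cases j <;>
      first
        | exact absurd rfl hij
        | exact e01
        | exact e02
        | exact hLM
        | exact hi1
        | exact hi2
        | exact e21
  · intro i j hij
    rw [eq_bot_iff]
    rintro z ⟨⟨t, ht, rfl⟩, ⟨t', ht', htt⟩⟩
    have h1 : t' = t := Subtype.ext htt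
    rw [h1] at ht'
    have h2 : f t ∈ A i ⊓ A j := ⟨ht, ht'⟩
    rw [hAd i j hij, mem_bot] at h2
    have h3 : t = 1 := hfi (by rw [h2, map_one])
    rw [h3, mem_bot]; simp
  · intro i
    fin_cases i
    · rintro k ⟨t, ht, rfl⟩ x hx
      have h1 := hsc (t : G) ht x (by
        have h2 : zpowers (a * b) ≤ Q := by rw [zpowers_le]; exact Q.mul_mem haQ hbQ
        exact h2 hx)
      have h2 : zpowers x ≤ zpowers (a * b) := by rw [zpowers_le]; exact hx
      exact h2 h1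
    · rintro k hk x hx
      have hx' : x ∈ zpowers a := hx
      show k * x * k⁻¹ ∈ zpowers a
      rw [haL] at hx' ⊢
      exact hLn.conj_mem x hx' k
    · rintro k hk x hx
      have hx' : x ∈ zpowers b := hx
      show k * x * k⁻¹ ∈ zpowers b
      rw [hbM] at hx' ⊢
      exact hMn.conj_mem x hx' k

theorem linesG {V : Type u} [hV : Group V] [Finite V] (hVm : ∀ x y : V, x * y = y * x)
    {q : ℕ} [hq : Fact q.Prime] (hVc : Nat.card V = q ^ 2) (hVe : ∀ x : V, x ^ q = 1)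
    {T : Type u} [hT : Group T] (hTm : ∀ x y : T, x * y = y * x)
    (ρ : T →* MulAut V) (hρ : ∀ g, ρ (g ^ (q - 1)) = 1) :
    ∃ (a b : V), a ≠ 1 ∧ b ≠ 1 ∧ zpowers a ⊓ zpowers b = ⊥ ∧
      (∀ g, ρ g a ∈ zpowers a) ∧ (∀ g, ρ g b ∈ zpowers b) := by
  let i1 : CommGroup V := { hV with mul_comm := hVm }
  let i2 : CommGroup T := { hT with mul_comm := hTm }
  obtain ⟨a, b, χ, ha, hb, hab, hga, hgb, hχ⟩ := @lines2 V i1 _ q hq hVc hVe T i2 ρ hρ
  exact ⟨a, b, ha, hb, hab, hga, hgb⟩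

/-- a line normalised by a non-scalar element is one of the two eigenlines -/
theorem nonscalar {G : Type u} [Group G] [Finite G] (Q : Subgroup G) {q : ℕ} [hq : Fact q.Prime]
    (hQc : ∀ x ∈ Q, ∀ y ∈ Q, x * y = y * x)
    (a b : G) (haQ : a ∈ Q) (hbQ : b ∈ Q) (hao : orderOf a = q) (hbo : orderOf b = q)
    (hab : zpowers a ⊓ zpowers b = ⊥)
    (hgen : ∀ x ∈ Q, ∃ i j : ℤ, x = a ^ i * b ^ j) (g : G)
    (hga : g * a * g⁻¹ ∈ zpowers a) (hgb : g * b * g⁻¹ ∈ zpowers b)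
    (hns : ∃ y ∈ Q, g * y * g⁻¹ ∉ zpowers y) (v : G) (hv : v ∈ Q)
    (hgv : g * v * g⁻¹ ∈ zpowers v) : v ∈ zpowers a ∨ v ∈ zpowers b := by
  by_contra hcon
  push Not at hcon
  obtain ⟨i, j, hvij⟩ := hgen v hv
  obtain ⟨α, hα⟩ := mem_zpowers_iff.1 hga
  obtain ⟨β, hβ⟩ := mem_zpowers_iff.1 hgb
  obtain ⟨k, hk⟩ := mem_zpowers_iff.1 hgv
  have hcab : Commute a b := hQc a haQ b hbQ
  have hconj : ∀ i j : ℤ, g * (a ^ i * b ^ j) * g⁻¹ = a ^ (α * i) * b ^ (β * j) := by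
    intro i j
    have h1 : g * (a ^ i * b ^ j) * g⁻¹ = (g * a * g⁻¹) ^ i * (g * b * g⁻¹) ^ j := by
      rw [conj_zpow, conj_zpow]; group
    rw [h1, ← hα, ← hβ, ← zpow_mul, ← zpow_mul]
  have hpk : ∀ i j k : ℤ, (a ^ i * b ^ j) ^ k = a ^ (k * i) * b ^ (k * j) := by
    intro i j k
    rw [((hcab.zpow_left i).zpow_right j).mul_zpow, ← zpow_mul, ← zpow_mul, mul_comm i k,
      mul_comm j k]
  have e1 : a ^ (α * i) * b ^ (β * j) = a ^ (k * i) * b ^ (k * j) := by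
    rw [← hconj, ← hpk, ← hvij, hk]
  have e2 : a ^ (α * i - k * i) = b ^ (k * j - β * j) := by
    rw [zpow_sub, zpow_sub]
    have h1 : (a ^ (k * i))⁻¹ * (a ^ (α * i) * b ^ (β * j)) * (b ^ (β * j))⁻¹ =
        (a ^ (k * i))⁻¹ * (a ^ (k * i) * b ^ (k * j)) * (b ^ (β * j))⁻¹ := by rw [e1]
    have h2 : a ^ (α * i) * (a ^ (k * i))⁻¹ = (a ^ (k * i))⁻¹ * a ^ (α * i) := by
      rw [← zpow_neg, ← zpow_add, ← zpow_add, add_comm]
    rw [h2]
    calc (a ^ (k * i))⁻¹ * a ^ (α * i)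
        = (a ^ (k * i))⁻¹ * (a ^ (α * i) * b ^ (β * j)) * (b ^ (β * j))⁻¹ := by group
      _ = (a ^ (k * i))⁻¹ * (a ^ (k * i) * b ^ (k * j)) * (b ^ (β * j))⁻¹ := h1
      _ = b ^ (k * j) * (b ^ (β * j))⁻¹ := by group
  have e3 : a ^ (α * i - k * i) ∈ zpowers a ⊓ zpowers b :=
    ⟨zpow_mem (mem_zpowers a) _, by rw [e2]; exact zpow_mem (mem_zpowers b) _⟩
  rw [hab, mem_bot] at e3
  have e4 : b ^ (k * j - β * j) = 1 := by rw [← e2, e3]
  have hqp : Prime (q : ℤ) := Nat.prime_iff_prime_int.1 hq.out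
  have d1 : (q : ℤ) ∣ α * i - k * i := by rw [← hao]; exact orderOf_dvd_iff_zpow_eq_one.2 e3
  have d2 : (q : ℤ) ∣ k * j - β * j := by rw [← hbo]; exact orderOf_dvd_iff_zpow_eq_one.2 e4
  rw [← sub_mul] at d1 d2
  have hi : ¬ (q : ℤ) ∣ i := by
    intro h
    apply hcon.2
    have : a ^ i = 1 := orderOf_dvd_iff_zpow_eq_one.1 (by rw [hao]; exact h)
    rw [hvij, this, one_mul]
    exact zpow_mem (mem_zpowers b) _
  have hj : ¬ (q : ℤ) ∣ j := by
    intro h
    apply hcon.1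
    have : b ^ j = 1 := orderOf_dvd_iff_zpow_eq_one.1 (by rw [hbo]; exact h)
    rw [hvij, this, mul_one]
    exact zpow_mem (mem_zpowers a) _
  have d3 := (hqp.dvd_or_dvd d1).resolve_right hi
  have d4 := (hqp.dvd_or_dvd d2).resolve_right hj
  obtain ⟨y, hy, hyn⟩ := hns
  apply hyn
  obtain ⟨x, z, hxz⟩ := hgen y hy
  rw [mem_zpowers_iff]
  refine ⟨k, ?_⟩
  rw [hxz, hconj, hpk]
  have f1 : a ^ (α * x) = a ^ (k * x) := by
    rw [zpow_eq_zpow_iff_modEq, hao, Int.modEq_comm, Int.modEq_iff_dvd, ← sub_mul]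
    exact d3.mul_right x
  have f2 : b ^ (β * z) = b ^ (k * z) := by
    rw [zpow_eq_zpow_iff_modEq, hbo, Int.modEq_iff_dvd, ← sub_mul]
    exact d4.mul_right z
  rw [f1, f2]

theorem forward (s q : ℕ) (hsq : Squarefree s) (hq : q.Prime) (hqs : q ∣ s)
    (hqmax : ∀ p : ℕ, p.Prime → p ∣ s → p ≤ q)
    (G : Type u) [Group G] [Finite G] (hG : Nat.card G = s ^ 2)
    (U : Fin 3 → Subgroup G) (hU : ∀ i, Nat.card (U i) = s)
    (hd : ∀ i j, i ≠ j → U i ⊓ U j = ⊥) :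
    ∃ (Q L M : Subgroup G) (_ : Q.Normal), L.Normal ∧ M.Normal ∧
      Nat.card Q = q ^ 2 ∧ Nat.card L = q ∧ Nat.card M = q ∧ L ≤ Q ∧ M ≤ Q ∧ L ⊓ M = ⊥ ∧
      ∃ A : Fin 3 → Subgroup (G ⧸ Q), (∀ i, Nat.card (A i) = s / q) ∧
        (∀ i j, i ≠ j → A i ⊓ A j = ⊥) ∧
        ∀ g : G, (QuotientGroup.mk g : G ⧸ Q) ∈ A 0 → ∀ y ∈ Q, g * y * g⁻¹ ∈ zpowers y := by
  obtain ⟨Q, hQn, m, hmt, hQ2, hqi, hQU, hDC, hUQ, hdQ, hfac⟩ :=
    facts s q hsq hq hqs hqmax G hG U hU hd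
  have : Fact q.Prime := ⟨hq⟩
  have hQm : ∀ x y : Q, x * y = y * x :=
    (IsPGroup.isMulCommutative_of_card_eq_prime_sq hQ2).is_comm.comm
  have hQc : ∀ x ∈ Q, ∀ y ∈ Q, x * y = y * x := fun x hx y hy =>
    congrArg Subtype.val (hQm ⟨x, hx⟩ ⟨y, hy⟩)
  have hcU : ∀ (H L : Subgroup G),
      Nat.card (H.subgroupOf L) = Nat.card (H ⊓ L : Subgroup G) := by
    intro H L
    rw [← Subgroup.card_map_of_injective (K := H.subgroupOf L) L.subtype_injective,
      Subgroup.subgroupOf_map_subtype]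
  have hQe : ∀ z : Q, z ^ q = 1 := fun z =>
    exp_lemma (r := q) hQ2 ((U 0).subgroupOf Q) ((U 1).subgroupOf Q)
      (by rw [hcU, hQU 0]) (by rw [hcU, hQU 1]) (by
        have h3 : (U 0).subgroupOf Q ⊓ (U 1).subgroupOf Q = (U 0 ⊓ U 1).subgroupOf Q := rfl
        rw [h3, hd 0 1 (by decide), Subgroup.bot_subgroupOf]) z
  let ρ : G →* MulAut Q := MulAut.conjNormal (H := Q)
  have hρa : ∀ (g : G) (y : Q), ((ρ g y : Q) : G) = g * y * g⁻¹ := fun g y =>
    MulAut.conjNormal_apply g y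
  have hρ1 : ∀ g : G, (∀ y ∈ Q, g * y = y * g) → ρ g = 1 := by
    intro g h
    apply MulEquiv.ext
    intro y
    apply Subtype.ext
    rw [hρa, h y y.2]
    simp
  have hρc : ∀ g h : G, Commute (ρ g) (ρ h) := by
    intro g h
    apply commutatorElement_eq_one_iff_commute.1
    rw [← map_commutatorElement]
    apply hρ1
    have h1 : ⁅g, h⁆ ∈ commutator G := by
      rw [commutator_def]
      exact Subgroup.commutator_mem_commutator (mem_top _) (mem_top _)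
    intro y hy
    exact (mem_centralizer_iff.1 (hDC h1) y hy).symm
  have hρq : ∀ g : G, ρ (g ^ (q - 1)) = 1 := by
    intro g
    obtain ⟨u, hu, v, hv, rfl⟩ := hfac 0 1 (by decide) g
    have h1 : ρ (u ^ (q - 1)) = 1 :=
      hρ1 _ (fun y hy => (cent2 Q (U 0) hQ2 hqi (hQU 0) u hu y hy).eq)
    have h2 : ρ (v ^ (q - 1)) = 1 :=
      hρ1 _ (fun y hy => (cent2 Q (U 1) hQ2 hqi (hQU 1) v hv y hy).eq)
    rw [map_pow, map_mul, (hρc u v).mul_pow, ← map_pow, ← map_pow, h1, h2, one_mul]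
  obtain ⟨a, b, ha, hb, hab, hga, hgb⟩ := linesG (V := Q) hQm hQ2 hQe (T := ρ.range)
    (by
      rintro ⟨_, g, rfl⟩ ⟨_, h, rfl⟩
      exact Subtype.ext (hρc g h).eq)
    ρ.range.subtype (by
      rintro ⟨_, g, rfl⟩
      show (ρ g) ^ (q - 1) = 1
      rw [← map_pow]; exact hρq g)
  have hao := order_eq hq a (hQe a) ha
  have hbo := order_eq hq b (hQe b) hb
  have hao' : orderOf (a : G) = q := by rw [Subgroup.orderOf_coe, hao]
  have hbo' : orderOf (b : G) = q := by rw [Subgroup.orderOf_coe, hbo]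
  have hco : ∀ (g : G) (x : Q), ρ g x ∈ zpowers x → g * x * g⁻¹ ∈ zpowers (x : G) := by
    intro g x hx
    obtain ⟨n, hn⟩ := mem_zpowers_iff.1 hx
    have h1 := congrArg Subtype.val hn
    rw [hρa, Subgroup.coe_zpow] at h1
    rw [← h1]
    exact zpow_mem (mem_zpowers _) n
  have hga' : ∀ g : G, g * a * g⁻¹ ∈ zpowers (a : G) := fun g =>
    hco g a (hga ⟨ρ g, g, rfl⟩)
  have hgb' : ∀ g : G, g * b * g⁻¹ ∈ zpowers (b : G) := fun g =>
    hco g b (hgb ⟨ρ g, g, rfl⟩)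
  have hab' : zpowers (a : G) ⊓ zpowers (b : G) = ⊥ := by
    rw [eq_bot_iff]
    rintro z ⟨hz1, hz2⟩
    obtain ⟨m, hm⟩ := mem_zpowers_iff.1 hz1
    obtain ⟨n, hn⟩ := mem_zpowers_iff.1 hz2
    have h1 : a ^ m = b ^ n := by
      apply Subtype.ext
      rw [Subgroup.coe_zpow, Subgroup.coe_zpow, hm, hn]
    have h2 : a ^ m ∈ zpowers a ⊓ zpowers b :=
      ⟨zpow_mem (mem_zpowers a) m, by rw [h1]; exact zpow_mem (mem_zpowers b) n⟩
    rw [hab, mem_bot] at h2
    rw [mem_bot, ← hm, ← Subgroup.coe_zpow, h2, Subgroup.coe_one]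
  have hnorm : ∀ x : G, (∀ g : G, g * x * g⁻¹ ∈ zpowers x) → (zpowers x).Normal := by
    intro x hx
    constructor
    intro z hz g
    obtain ⟨n, rfl⟩ := mem_zpowers_iff.1 hz
    rw [← conj_zpow]
    exact zpow_mem (hx g) n
  have hgen : ∀ x ∈ Q, ∃ i j : ℤ, x = (a : G) ^ i * (b : G) ^ j := by
    intro x hx
    obtain ⟨y, hy, z, hz, hyz⟩ := fac_of_pcp (A := zpowers a) (B := zpowers b)
      (by rw [Nat.card_zpowers, Nat.card_zpowers, hao, hbo, hQ2, sq]) hab ⟨x, hx⟩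
    obtain ⟨i, rfl⟩ := mem_zpowers_iff.1 hy
    obtain ⟨j, rfl⟩ := mem_zpowers_iff.1 hz
    exact ⟨i, j, congrArg Subtype.val hyz⟩
  -- one component acts by scalars
  obtain ⟨i₀, hi₀⟩ : ∃ i, ∀ g ∈ U i, ∀ y ∈ Q, g * y * g⁻¹ ∈ zpowers y := by
    by_contra hno
    push Not at hno
    have hv : ∀ i, ∃ v : G, v ∈ U i ∧ v ∈ Q ∧ orderOf v = q ∧ zpowers v = U i ⊓ Q := by
      intro i
      obtain ⟨x, hx⟩ := exists_prime_orderOf_dvd_card' (G := (U i ⊓ Q : Subgroup G)) q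
        (by rw [hQU i])
      have hx' : orderOf (x : G) = q := by rw [Subgroup.orderOf_coe, hx]
      refine ⟨x, x.2.1, x.2.2, hx', ?_⟩
      apply Subgroup.eq_of_le_of_card_ge
      · rw [zpowers_le]; exact x.2
      · rw [hQU i, Nat.card_zpowers, hx']
    choose v hvU hvQ hvo hvz using hv
    have hcl : ∀ i, v i ∈ zpowers (a : G) ∨ v i ∈ zpowers (b : G) := by
      intro i
      obtain ⟨g, hg, y, hy, hgy⟩ := hno i
      refine nonscalar Q hQc a b a.2 b.2 hao' hbo' hab' hgen g (hga' g) (hgb' g)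
        ⟨y, hy, hgy⟩ (v i) (hvQ i) ?_
      rw [hvz i]
      exact ⟨(U i).mul_mem ((U i).mul_mem hg (hvU i)) ((U i).inv_mem hg),
        hQn.conj_mem _ (hvQ i) g⟩
    have hpair : ∀ (w : G), orderOf w = q → ∀ i j, i ≠ j → v i ∈ zpowers w →
        v j ∈ zpowers w → False := by
      intro w hw i j hij h1 h2
      have h3 : zpowers (v i) = zpowers w := by
        apply Subgroup.eq_of_le_of_card_ge
        · rw [zpowers_le]; exact h1
        · rw [Nat.card_zpowers, Nat.card_zpowers, hvo i, hw]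
      rw [← h3, hvz i] at h2
      have h4 : v j ∈ U i ⊓ U j := ⟨h2.1, hvU j⟩
      rw [hd i j hij, mem_bot] at h4
      have h5 := hvo j
      rw [h4, orderOf_one] at h5
      exact hq.one_lt.ne h5
    rcases hcl 0 with h0 | h0 <;> rcases hcl 1 with h1 | h1 <;> rcases hcl 2 with h2 | h2
    · exact hpair _ hao' 0 1 (by decide) h0 h1
    · exact hpair _ hao' 0 1 (by decide) h0 h1
    · exact hpair _ hao' 0 2 (by decide) h0 h2
    · exact hpair _ hbo' 1 2 (by decide) h1 h2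
    · exact hpair _ hao' 1 2 (by decide) h1 h2
    · exact hpair _ hbo' 0 2 (by decide) h0 h2
    · exact hpair _ hbo' 0 1 (by decide) h0 h1
    · exact hpair _ hbo' 0 1 (by decide) h0 h1
  refine ⟨Q, zpowers (a : G), zpowers (b : G), hQn, hnorm _ hga', hnorm _ hgb', hQ2,
    by rw [Nat.card_zpowers, hao'], by rw [Nat.card_zpowers, hbo'],
    by rw [zpowers_le]; exact a.2, by rw [zpowers_le]; exact b.2, hab',
    fun j => (U (Equiv.swap 0 i₀ j)).map (QuotientGroup.mk' Q), ?_, ?_, ?_⟩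
  · intro j
    rw [hUQ, hmt, Nat.mul_div_cancel _ hq.pos]
  · intro j k hjk
    exact hdQ _ _ (fun h => hjk ((Equiv.swap 0 i₀).injective h))
  · intro g hg y hy
    have hg' : (QuotientGroup.mk g : G ⧸ Q) ∈ (U i₀).map (QuotientGroup.mk' Q) := by
      simpa using hg
    obtain ⟨u, hu, hug⟩ := hg'
    have h1 : (QuotientGroup.mk u : G ⧸ Q) = QuotientGroup.mk g := hug
    rw [QuotientGroup.eq] at h1
    have h2 : g * y * g⁻¹ = u * y * u⁻¹ := by
      have h3 : (u⁻¹ * g) * y = y * (u⁻¹ * g) := hQc _ h1 _ hy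
      calc g * y * g⁻¹ = u * ((u⁻¹ * g) * y) * g⁻¹ := by group
        _ = u * (y * (u⁻¹ * g)) * g⁻¹ := by rw [h3]
        _ = u * y * u⁻¹ := by group
    rw [h2]
    exact hi₀ u hu y hy

theorem result (s q : ℕ) (hs : Squarefree s) (hq : q.Prime) (hqs : q ∣ s)
    (hqmax : ∀ p : ℕ, p.Prime → p ∣ s → p ≤ q) (G : Type u) [Group G]
    (hG : Nat.card G = s ^ 2) :
    (∃ U : Fin 3 → Subgroup G, (∀ i, Nat.card (U i) = s) ∧ ∀ i j, i ≠ j → U i ⊓ U j = ⊥) ↔
      ∃ (Q L M : Subgroup G) (_ : Q.Normal), L.Normal ∧ M.Normal ∧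
        Nat.card Q = q ^ 2 ∧ Nat.card L = q ∧ Nat.card M = q ∧ L ≤ Q ∧ M ≤ Q ∧ L ⊓ M = ⊥ ∧
        ∃ A : Fin 3 → Subgroup (G ⧸ Q), (∀ i, Nat.card (A i) = s / q) ∧
          (∀ i j, i ≠ j → A i ⊓ A j = ⊥) ∧
          ∀ g : G, (QuotientGroup.mk g : G ⧸ Q) ∈ A 0 → ∀ y ∈ Q, g * y * g⁻¹ ∈ zpowers y := by
  have hs0 : s ≠ 0 := hs.ne_zero
  have hfin : Finite G := Nat.finite_of_card_ne_zero (by rw [hG]; exact pow_ne_zero _ hs0)
  constructor
  · rintro ⟨U, hU, hd⟩
    exact forward s q hs hq hqs hqmax G hG U hU hd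
  · rintro ⟨Q, L, M, hQn, hLn, hMn, hQ2, hL, hM, hLQ, hMQ, hLM, A, hA, hAd, hsc⟩
    obtain ⟨m, hm⟩ := hqs
    have hmq : s = m * q := by rw [hm, mul_comm]
    have hqm : ¬ q ∣ m := by
      intro h
      have h1 := hs q (by rw [hm]; exact mul_dvd_mul_left q h)
      exact hq.one_lt.ne' (Nat.isUnit_iff.1 h1)
    have hm0 : 0 < m := by
      rcases Nat.eq_zero_or_pos m with h | h
      · rw [h, mul_zero] at hm; exact absurd hm hs0
      · exact h
    have hsm : s / q = m := by rw [hmq, Nat.mul_div_cancel _ hq.pos]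
    rw [hmq] at hG ⊢
    exact backward m q hq hqm G hm0 hG Q L M hQn hLn hMn hQ2 hL hM hLQ hMQ hLM A
      (fun i => by rw [hA i, hsm]) hAd hsc

end Pool.Agent.Results.MP_53dcbc_co.ASquarefreeRecursion
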