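import Mathlib
import Pool.Agent.Helper354.Pcp.Build
import Pool.Agent.Helper354.Pcp.Key2
import Pool.Agent.Helper354.Pcp.Rigid

/-!
Complete answer for squarefree `s` and the groups of order `s ^ 2` which have a normal Sylow
subgroup `Q` of order `q ^ 2` with abelian quotient.
-/

set_option autoImplicit false

namespace Pool.Agent.Results.MP_53dcbc_co.AbelianOverSylow

open Subgroup
open scoped commutatorElement
open Pool.Agent.Helper354.Pcp

universe u

theorem rigid2 {T : Type u} [Group T] {q : ℕ} [hq : Fact q.Prime]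
    (hT : Nat.card T = q) (f : T →* T) (hf : Function.Injective f) (x : T) :
    f^[q - 1] x = x := by
  have hc : IsCyclic T := isCyclic_of_prime_card (p := q) hT
  have hfin : Finite T := Nat.finite_of_card_ne_zero (by rw [hT]; exact hq.out.ne_zero)
  obtain ⟨m, hm⟩ := MonoidHom.map_cyclic f
  have hk : ∀ (k : ℕ) (y : T), f^[k] y = y ^ (m ^ k) := by
    intro k
    induction k with
    | zero => intro y; simp
    | succ k ih =>
      intro y
      rw [Function.iterate_succ_apply, ih, hm, ← zpow_mul, pow_succ, mul_comm]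
  obtain ⟨y, hy⟩ : ∃ y : T, y ≠ 1 := by
    have : Nontrivial T := by
      rw [← Finite.one_lt_card_iff_nontrivial, hT]
      exact hq.out.one_lt
    exact exists_ne 1
  have hyo : y ^ q = 1 := by rw [← hT]; exact pow_card_eq_one'
  have hm0 : (m : ZMod q) ≠ 0 := by
    intro h0
    rw [ZMod.intCast_zmod_eq_zero_iff_dvd] at h0
    obtain ⟨k, hk⟩ := h0
    have h1 : f y = 1 := by
      rw [hm, hk, zpow_mul, zpow_natCast, hyo, one_zpow]
    exact hy (hf (by rw [h1, map_one]))
  have h3 : (m : ZMod q) ^ (q - 1) = 1 := ZMod.pow_card_sub_one_eq_one hm0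
  have h6 : m ^ (q - 1) ≡ 1 [ZMOD q] := by
    rw [← ZMod.intCast_eq_intCast_iff]; push_cast; exact h3
  rw [hk]
  have h7 : x ^ (m ^ (q - 1)) = x ^ (1 : ℤ) := by
    rw [zpow_eq_zpow_iff_modEq]
    have h8 : orderOf x ∣ q := by rw [← hT]; exact orderOf_dvd_natCard x
    exact h6.of_dvd (by exact_mod_cast h8)
  rw [h7, zpow_one]

theorem cent2 {G : Type u} [Group G] [Finite G] (Q A : Subgroup G) [hQn : Q.Normal]
    {q : ℕ} [hq : Fact q.Prime] (hQ2 : Nat.card Q = q ^ 2)
    (hQi : ¬ q ∣ Q.index)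
    (hAQ : Nat.card (A ⊓ Q : Subgroup G) = q) (u : G) (hu : u ∈ A) :
    ∀ x ∈ Q, Commute (u ^ (q - 1)) x := by
  have hQp : IsPGroup q Q := IsPGroup.of_card hQ2
  have hQc : ∀ x ∈ Q, ∀ y ∈ Q, x * y = y * x := by
    have h1 := IsPGroup.isMulCommutative_of_card_eq_prime_sq hQ2
    intro x hx y hy
    exact congrArg Subtype.val (h1.is_comm.comm ⟨x, hx⟩ ⟨y, hy⟩)
  let T : Subgroup G := A ⊓ Q
  have hTconj : ∀ z ∈ T, u * z * u⁻¹ ∈ T := fun z hz =>
    ⟨A.mul_mem (A.mul_mem hu hz.1) (A.inv_mem hu), hQn.conj_mem z hz.2 u⟩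
  have hc1 : ∀ z ∈ T, Commute (u ^ (q - 1)) z := by
    intro z hz
    let f : T →* T :=
      { toFun := fun z => ⟨u * z * u⁻¹, hTconj z z.2⟩
        map_one' := by apply Subtype.ext; simp
        map_mul' := by
          intro a b
          apply Subtype.ext
          show u * ((a : G) * b) * u⁻¹ = (u * a * u⁻¹) * (u * b * u⁻¹)
          group }
    have hfi : Function.Injective f := by
      intro a b hab
      have h1 : u * (a : G) * u⁻¹ = u * b * u⁻¹ := congrArg Subtype.val hab
      apply Subtype.ext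
      exact mul_left_cancel (mul_right_cancel h1)
    have hfk : ∀ (k : ℕ) (y : T), ((f^[k] y : T) : G) = u ^ k * y * (u ^ k)⁻¹ := by
      intro k
      induction k with
      | zero => intro y; simp
      | succ k ih =>
        intro y
        rw [Function.iterate_succ_apply, ih]
        show u ^ k * (u * (y : G) * u⁻¹) * (u ^ k)⁻¹ = u ^ (k + 1) * y * (u ^ (k + 1))⁻¹
        rw [pow_succ]; group
    have h1 := rigid2 hAQ f hfi ⟨z, hz⟩
    have h2 : u ^ (q - 1) * z * (u ^ (q - 1))⁻¹ = z := by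
      rw [← hfk (q - 1) ⟨z, hz⟩, h1]
    show u ^ (q - 1) * z = z * u ^ (q - 1)
    calc u ^ (q - 1) * z = (u ^ (q - 1) * z * (u ^ (q - 1))⁻¹) * u ^ (q - 1) := by group
      _ = z * u ^ (q - 1) := by rw [h2]
  let N : Subgroup Q := A.subgroupOf Q
  have hNn : N.Normal := by
    constructor
    intro a ha b
    have : b * a * b⁻¹ = a := by
      have h1 : b * a = a * b := Subtype.ext (hQc b b.2 a a.2)
      rw [h1]; group
    rw [this]; exact ha
  have hNc : Nat.card N = q := by
    rw [← Subgroup.card_map_of_injective (K := A.subgroupOf Q) Q.subtype_injective,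
      Subgroup.subgroupOf_map_subtype, hAQ]
  have hNi : Nat.card (Q ⧸ N) = q := by
    have h1 := N.card_mul_index
    rw [hNc, hQ2, sq] at h1
    exact Nat.eq_of_mul_eq_mul_left hq.out.pos h1
  have hle : N ≤ N.comap (MulAut.conjNormal u : MulAut Q).toMonoidHom := by
    intro z hz
    have hz' : (z : G) ∈ A := hz
    show ((MulAut.conjNormal u z : Q) : G) ∈ A
    rw [MulAut.conjNormal_apply]
    exact A.mul_mem (A.mul_mem hu hz') (A.inv_mem hu)
  let F : Q ⧸ N →* Q ⧸ N := QuotientGroup.map N N (MulAut.conjNormal u : MulAut Q).toMonoidHom hle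
  have hFi : Function.Injective F := by
    rw [injective_iff_map_eq_one]
    intro y hy
    obtain ⟨y, rfl⟩ := QuotientGroup.mk_surjective y
    have h1 : (QuotientGroup.mk (MulAut.conjNormal u y) : Q ⧸ N) = 1 := hy
    rw [QuotientGroup.eq_one_iff] at h1 ⊢
    have h2 : ((MulAut.conjNormal u y : Q) : G) ∈ A := h1
    rw [MulAut.conjNormal_apply] at h2
    show (y : G) ∈ A
    have h3 : (y : G) = u⁻¹ * (u * y * u⁻¹) * u := by group
    rw [h3]
    exact A.mul_mem (A.mul_mem (A.inv_mem hu) h2) hu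
  have hFk : ∀ (k : ℕ) (y : Q), F^[k] (QuotientGroup.mk y) =
      QuotientGroup.mk (MulAut.conjNormal (u ^ k) y) := by
    intro k
    induction k with
    | zero => intro y; simp
    | succ k ih =>
      intro y
      rw [Function.iterate_succ_apply]
      have h1 : F (QuotientGroup.mk y) = QuotientGroup.mk (MulAut.conjNormal u y) := rfl
      rw [h1, ih, pow_succ, map_mul, MulAut.mul_apply]
  have hc2 : ∀ x ∈ Q, ⁅u ^ (q - 1), x⁆ ∈ A := by
    intro x hx
    have h1 := rigid2 hNi F hFi (QuotientGroup.mk ⟨x, hx⟩)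
    rw [hFk, QuotientGroup.eq] at h1
    have h3 : (((MulAut.conjNormal (u ^ (q - 1)) (⟨x, hx⟩ : Q))⁻¹ * ⟨x, hx⟩ : Q) : G) ∈ A := h1
    have h4 : (((MulAut.conjNormal (u ^ (q - 1)) (⟨x, hx⟩ : Q))⁻¹ * ⟨x, hx⟩ : Q) : G) =
        (u ^ (q - 1) * x * (u ^ (q - 1))⁻¹)⁻¹ * x := by
      simp only [Subgroup.coe_mul, Subgroup.coe_inv, MulAut.conjNormal_apply]
    rw [h4] at h3
    have h5 : ⁅u ^ (q - 1), x⁆ = ((u ^ (q - 1) * x * (u ^ (q - 1))⁻¹)⁻¹ * x)⁻¹ := by
      have h1 : u ^ (q - 1) * x * (u ^ (q - 1))⁻¹ ∈ Q := hQn.conj_mem x hx _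
      rw [mul_inv_rev, inv_inv, hQc _ (Q.inv_mem hx) _ h1]
      rfl
    rw [h5]
    exact A.inv_mem h3
  intro x hx
  have hwx : ⁅u ^ (q - 1), x⁆ ∈ Q := by
    rw [commutatorElement_def]
    exact Q.mul_mem (hQn.conj_mem x hx _) (Q.inv_mem hx)
  exact trick Q hQp hQi _ x hwx (hc1 _ ⟨hc2 x hx, hwx⟩) (fun m hm => hQc m hm x hx)

theorem data {V : Type u} [hV : Group V] [Finite V] (hVm : ∀ x y : V, x * y = y * x)
    {q m : ℕ} [hq : Fact q.Prime] (hVc : Nat.card V = q ^ 2) (hVe : ∀ x : V, x ^ q = 1)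
    {T : Type u} [hT : Group T] [Finite T] (hTm : ∀ x y : T, x * y = y * x)
    (hm : Squarefree m) (hTc : Nat.card T = m ^ 2) (hTe : ∀ t : T, t ^ m = 1)
    (ρ : T →* MulAut V) (hρ : ∀ g, ρ (g ^ (q - 1)) = 1) :
    ∃ (a b : V) (c d : T), a ≠ 1 ∧ b ≠ 1 ∧ zpowers a ⊓ zpowers b = ⊥ ∧
      (∀ g, ρ g a ∈ zpowers a) ∧ (∀ g, ρ g b ∈ zpowers b) ∧
      ρ c (a * b) ∈ zpowers (a * b) ∧ orderOf c = m ∧ orderOf d = m ∧
      zpowers c ⊓ zpowers d = ⊥ := by
  let i1 : CommGroup V := { hV with mul_comm := hVm }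
  let i2 : CommGroup T := { hT with mul_comm := hTm }
  obtain ⟨a, b, χ, ha, hb, hab, hga, hgb, hχ⟩ := @lines2 V i1 _ q hq hVc hVe T i2 ρ hρ
  obtain ⟨c, d, hc, hco, hdo, hcd⟩ := @exists_gens T i2 _ m q hq hm hTc hTe χ
  exact ⟨a, b, c, d, ha, hb, hab, hga, hgb, hχ c hc, hco, hdo, hcd⟩

theorem coe_inf_bot {G : Type u} [Group G] (H : Subgroup G) (a b : H)
    (h : zpowers a ⊓ zpowers b = ⊥) : zpowers (a : G) ⊓ zpowers (b : G) = ⊥ := by
  rw [eq_bot_iff]
  rintro z ⟨hz1, hz2⟩
  obtain ⟨m, hm⟩ := mem_zpowers_iff.1 hz1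
  obtain ⟨n, hn⟩ := mem_zpowers_iff.1 hz2
  have h1 : a ^ m = b ^ n := by
    apply Subtype.ext
    rw [Subgroup.coe_zpow, Subgroup.coe_zpow, hm, hn]
  have h2 : a ^ m ∈ zpowers a ⊓ zpowers b :=
    ⟨zpow_mem (mem_zpowers a) m, by rw [h1]; exact zpow_mem (mem_zpowers b) n⟩
  rw [h, mem_bot] at h2
  rw [mem_bot, ← hm, ← Subgroup.coe_zpow, h2, Subgroup.coe_one]

theorem result (s q : ℕ) (hs : Squarefree s) (hq : q.Prime) (hqs : q ∣ s)
    (G : Type u) [Group G] (hG : Nat.card G = s ^ 2)
    (Q : Subgroup G) (hQn : Q.Normal) (hQ2 : Nat.card Q = q ^ 2)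
    (hab : ∀ x y : G, x * y * x⁻¹ * y⁻¹ ∈ Q) :
    (∃ U : Fin 3 → Subgroup G, (∀ i, Nat.card (U i) = s) ∧ ∀ i j, i ≠ j → U i ⊓ U j = ⊥) ↔
      (∀ x : G, x ^ s = 1) ∧ (∀ x : G, ∀ y ∈ Q, x ^ (q - 1) * y = y * x ^ (q - 1)) := by
  have hs0 : s ≠ 0 := hs.ne_zero
  have hfin : Finite G := Nat.finite_of_card_ne_zero (by rw [hG]; exact pow_ne_zero _ hs0)
  have : Fact q.Prime := ⟨hq⟩
  obtain ⟨m, hm⟩ := hqs
  have hmq : s = m * q := by rw [hm, mul_comm]
  have hqm : ¬ q ∣ m := by
    intro h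
    have h1 := hs q (by rw [hm]; exact mul_dvd_mul_left q h)
    exact hq.one_lt.ne' (Nat.isUnit_iff.1 h1)
  have hm0 : 0 < m := by
    rcases Nat.eq_zero_or_pos m with h | h
    · rw [h, mul_zero] at hm; exact absurd hm hs0
    · exact h
  have hmsq : Squarefree m := hs.squarefree_of_dvd ⟨q, hmq⟩
  have hcop : Nat.Coprime q m := hq.coprime_iff_not_dvd.2 hqm
  have hQi : Q.index = m ^ 2 := by
    have h1 := Q.card_mul_index
    rw [hQ2, hG, hmq, mul_pow, mul_comm (m ^ 2)] at h1
    exact Nat.eq_of_mul_eq_mul_left (pow_pos hq.pos 2) h1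
  have hqi : ¬ q ∣ Q.index := by
    rw [hQi]; intro h; exact hqm (hq.dvd_of_dvd_pow h)
  have hQm : ∀ x y : Q, x * y = y * x :=
    (IsPGroup.isMulCommutative_of_card_eq_prime_sq hQ2).is_comm.comm
  let ρ : G →* MulAut Q := MulAut.conjNormal (H := Q)
  have hρa : ∀ (g : G) (y : Q), ((ρ g y : Q) : G) = g * y * g⁻¹ := fun g y =>
    MulAut.conjNormal_apply g y
  have hρQ : ∀ g ∈ Q, ρ g = 1 := by
    intro g hg
    apply MulEquiv.ext
    intro y
    apply Subtype.ext
    rw [hρa]
    have h1 : g * (y : G) = y * g := congrArg Subtype.val (hQm ⟨g, hg⟩ y)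
    rw [h1]
    simp
  have hρ1 : ∀ g : G, ρ g = 1 ↔ ∀ y ∈ Q, g * y = y * g := by
    intro g
    constructor
    · intro h y hy
      have h1 := hρa g ⟨y, hy⟩
      rw [h] at h1
      have h2 : y = g * y * g⁻¹ := h1
      calc g * y = (g * y * g⁻¹) * g := by group
        _ = y * g := by rw [← h2]
    · intro h
      apply MulEquiv.ext
      intro y
      apply Subtype.ext
      rw [hρa, h y y.2]
      simp
  constructor
  · rintro ⟨U, hU, hd⟩
    have hcU : ∀ (H L : Subgroup G),
        Nat.card (H.subgroupOf L) = Nat.card (H ⊓ L : Subgroup G) := by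
      intro H L
      rw [← Subgroup.card_map_of_injective (K := H.subgroupOf L) L.subtype_injective,
        Subgroup.subgroupOf_map_subtype]
    have hfac : ∀ i j, i ≠ j → ∀ g : G, ∃ x ∈ U i, ∃ y ∈ U j, g = x * y := fun i j hij =>
      fac_of_pcp (by rw [hU i, hU j, hG, sq]) (hd i j hij)
    have hQU : ∀ i, Nat.card (U i ⊓ Q : Subgroup G) = q := by
      intro i
      have h1 : Nat.card (Q.subgroupOf (U i)) = Nat.card (U i ⊓ Q : Subgroup G) := by
        rw [hcU, inf_comm]
      have h2 : Nat.card (U i ⊓ Q : Subgroup G) * (Q.subgroupOf (U i)).index = s := by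
        rw [← h1, Subgroup.card_mul_index, hU i]
      have h3 : (Q.subgroupOf (U i)).index ∣ m ^ 2 := by
        rw [← hQi]; exact Subgroup.relIndex_dvd_index_of_normal Q (U i)
      have h4 : Nat.card (U i ⊓ Q : Subgroup G) ∣ q ^ 2 := by
        rw [← hQ2]; exact Subgroup.card_dvd_of_le inf_le_right
      obtain ⟨k, hk, hk'⟩ := (Nat.dvd_prime_pow hq).1 h4
      interval_cases k
      · exfalso
        rw [hk', pow_zero, one_mul] at h2
        rw [h2] at h3
        exact hqm (hq.dvd_of_dvd_pow ((Dvd.intro_left m hmq.symm).trans h3))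
      · rw [hk', pow_one]
      · exfalso
        have h5 : q * q ∣ s := by rw [← sq, ← h2, hk']; exact dvd_mul_right _ _
        exact hq.one_lt.ne' (Nat.isUnit_iff.1 (hs q h5))
    constructor
    · intro x
      obtain ⟨u, hu, v, hv, rfl⟩ := hfac 0 1 (by decide) x
      have hum : ∀ i, ∀ w ∈ U i, w ^ m ∈ Q := by
        intro i w hw
        have h1 : Nat.card (Q.subgroupOf (U i)) = q := by rw [hcU, inf_comm, hQU i]
        have h2 := (Q.subgroupOf (U i)).card_mul_index
        rw [h1, hU i, hm] at h2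
        have h3 : (Q.subgroupOf (U i)).index = m := Nat.eq_of_mul_eq_mul_left hq.pos h2
        have h4 := (Q.subgroupOf (U i)).pow_index_mem ⟨w, hw⟩
        rw [h3] at h4
        exact h4
      have h1 : (QuotientGroup.mk (u * v) : G ⧸ Q) ^ m = 1 := by
        have hc : Commute (QuotientGroup.mk u : G ⧸ Q) (QuotientGroup.mk v) := by
          apply commutatorElement_eq_one_iff_commute.1
          exact (QuotientGroup.eq_one_iff _).2 (hab u v)
        rw [QuotientGroup.mk_mul, hc.mul_pow, ← QuotientGroup.mk_pow, ← QuotientGroup.mk_pow,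
          (QuotientGroup.eq_one_iff _).2 (hum 0 u hu), (QuotientGroup.eq_one_iff _).2 (hum 1 v hv),
          one_mul]
      rw [← QuotientGroup.mk_pow, QuotientGroup.eq_one_iff] at h1
      have h2 := exp_lemma (r := q) hQ2 ((U 0).subgroupOf Q) ((U 1).subgroupOf Q)
        (by rw [hcU, hQU 0]) (by rw [hcU, hQU 1]) (by
          have h3 : (U 0).subgroupOf Q ⊓ (U 1).subgroupOf Q = (U 0 ⊓ U 1).subgroupOf Q := rfl
          rw [h3, hd 0 1 (by decide), Subgroup.bot_subgroupOf]) ⟨_, h1⟩
      have h3 := congrArg Subtype.val h2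
      rw [hmq, pow_mul]
      exact h3
    · intro x
      rw [← hρ1]
      obtain ⟨u, hu, v, hv, rfl⟩ := hfac 0 1 (by decide) x
      have h1 : ρ (u ^ (q - 1)) = 1 :=
        (hρ1 _).2 (fun y hy => (cent2 Q (U 0) hQ2 hqi (hQU 0) u hu y hy).eq)
      have h2 : ρ (v ^ (q - 1)) = 1 :=
        (hρ1 _).2 (fun y hy => (cent2 Q (U 1) hQ2 hqi (hQU 1) v hv y hy).eq)
      have hc : Commute (ρ u) (ρ v) := by
        apply commutatorElement_eq_one_iff_commute.1
        rw [← map_commutatorElement]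
        exact hρQ _ (hab u v)
      rw [map_pow, map_mul, hc.mul_pow, ← map_pow, ← map_pow, h1, h2, one_mul]
  · rintro ⟨hexp, hcent⟩
    obtain ⟨T, hT⟩ := Subgroup.exists_right_complement'_of_coprime (N := Q) (by
      rw [hQ2, hQi]; exact Nat.Coprime.pow _ _ hcop)
    have hTc : Nat.card T = m ^ 2 := by rw [← hQi, hT.symm.index_eq_card]
    have hTQ : T ⊓ Q = ⊥ := by rw [inf_comm]; exact disjoint_iff.1 hT.disjoint
    have hTm : ∀ x y : T, x * y = y * x := by
      intro x y
      have h1 : ((x : G) * y * (x : G)⁻¹ * (y : G)⁻¹) ∈ T ⊓ Q :=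
        ⟨T.mul_mem (T.mul_mem (T.mul_mem x.2 y.2) (T.inv_mem x.2)) (T.inv_mem y.2), hab x y⟩
      rw [hTQ, mem_bot] at h1
      apply Subtype.ext
      exact commutatorElement_eq_one_iff_mul_comm.1 h1
    have hTe : ∀ t : T, t ^ m = 1 := by
      intro g
      have h1 : orderOf g ∣ m ^ 2 := by rw [← hTc]; exact orderOf_dvd_natCard g
      have h2 : orderOf g ∣ m * q := by
        apply orderOf_dvd_of_pow_eq_one
        apply Subtype.ext
        rw [← hmq]
        exact hexp g
      have h4 : Nat.Coprime (orderOf g) q :=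
        Nat.Coprime.coprime_dvd_left h1 (Nat.Coprime.pow_left 2 hcop.symm)
      exact orderOf_dvd_iff_pow_eq_one.1 (h4.dvd_of_dvd_mul_right h2)
    have hQe : ∀ g : Q, g ^ q = 1 := by
      intro g
      have h1 : orderOf g ∣ q ^ 2 := by rw [← hQ2]; exact orderOf_dvd_natCard g
      have h2 : orderOf g ∣ m * q := by
        apply orderOf_dvd_of_pow_eq_one
        apply Subtype.ext
        rw [← hmq]
        exact hexp g
      have h4 : Nat.Coprime (orderOf g) m :=
        Nat.Coprime.coprime_dvd_left h1 (Nat.Coprime.pow_left 2 hcop)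
      exact orderOf_dvd_iff_pow_eq_one.1 (h4.dvd_of_dvd_mul_left h2)
    obtain ⟨a, b, c, d, ha, hb, hiab, hga, hgb, hcab, hcO, hdO, hicd⟩ :=
      data hQm hQ2 hQe hTm hmsq hTc hTe (ρ.comp T.subtype) (fun g => by
        show ρ ((g : G) ^ (q - 1)) = 1
        exact (hρ1 _).2 (hcent g))
    have hco : ∀ (g : T) (x : Q), (ρ.comp T.subtype) g x ∈ zpowers x →
        (g : G) * x * (g : G)⁻¹ ∈ zpowers (x : G) := by
      intro g x hx
      obtain ⟨n, hn⟩ := mem_zpowers_iff.1 hx
      have h1 := congrArg Subtype.val hn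
      have h2 : (((ρ.comp T.subtype) g x : Q) : G) = (g : G) * x * (g : G)⁻¹ := hρa _ _
      rw [h2, Subgroup.coe_zpow] at h1
      rw [← h1]
      exact zpow_mem (mem_zpowers _) n
    have hao := order_eq hq a (hQe a) ha
    have hbo := order_eq hq b (hQe b) hb
    obtain ⟨habo, hi1, hi2⟩ := third2 q a b (hQm a b) hao hbo hiab
    obtain ⟨hcdo, hj1, hj2⟩ := third2 m c d (hTm c d) hcO hdO hicd
    have a01 := coe_inf_bot Q a b hiab
    have a02 := coe_inf_bot Q a (a * b) hi1
    have a12 := coe_inf_bot Q b (a * b) hi2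
    have c02 := coe_inf_bot T c d hicd
    have c12 := coe_inf_bot T c (c * d) hj1
    have c01 := coe_inf_bot T d (c * d) hj2
    have a10 : zpowers (b : G) ⊓ zpowers (a : G) = ⊥ := by rw [inf_comm]; exact a01
    have a20 : zpowers ((a * b : Q) : G) ⊓ zpowers (a : G) = ⊥ := by rw [inf_comm]; exact a02
    have a21 : zpowers ((a * b : Q) : G) ⊓ zpowers (b : G) = ⊥ := by rw [inf_comm]; exact a12
    have c20 : zpowers (d : G) ⊓ zpowers (c : G) = ⊥ := by rw [inf_comm]; exact c02
    have c21 : zpowers ((c * d : T) : G) ⊓ zpowers (c : G) = ⊥ := by rw [inf_comm]; exact c12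
    have c10 : zpowers ((c * d : T) : G) ⊓ zpowers (d : G) = ⊥ := by rw [inf_comm]; exact c01
    rw [hmq]
    refine build T Q hTQ (p := m) (q := q) ![(a : G), (b : G), ((a * b : Q) : G)]
      ![(d : G), ((c * d : T) : G), (c : G)] ?_ ?_ ?_ ?_ ?_ ?_ ?_
    · intro i
      fin_cases i
      · exact a.2
      · exact b.2
      · exact (a * b).2
    · intro i
      fin_cases i
      · exact d.2
      · exact (c * d).2
      · exact c.2
    · intro i
      fin_cases i
      · show orderOf (a : G) = q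
        rw [Subgroup.orderOf_coe]; exact hao
      · show orderOf (b : G) = q
        rw [Subgroup.orderOf_coe]; exact hbo
      · show orderOf ((a * b : Q) : G) = q
        rw [Subgroup.orderOf_coe]; exact habo
    · intro i
      fin_cases i
      · show orderOf (d : G) = m
        rw [Subgroup.orderOf_coe]; exact hdO
      · show orderOf ((c * d : T) : G) = m
        rw [Subgroup.orderOf_coe]; exact hcdo
      · show orderOf (c : G) = m
        rw [Subgroup.orderOf_coe]; exact hcO
    · intro i j hij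
      fin_cases i <;> fin_cases j <;>
        first
          | exact absurd rfl hij
          | exact a01
          | exact a02
          | exact a12
          | exact a10
          | exact a20
          | exact a21
    · intro i j hij
      fin_cases i <;> fin_cases j <;>
        first
          | exact absurd rfl hij
          | exact c01
          | exact c20
          | exact c21
          | exact c10
          | exact c02
          | exact c12
    · intro i
      fin_cases i
      · exact hco d a (hga d)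
      · exact hco (c * d) b (hgb (c * d))
      · exact hco c (a * b) hcab

end Pool.Agent.Results.MP_53dcbc_co.AbelianOverSylow
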