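import Mathlib
import Pool.Agent.Helper354.Pcp.Metab

/-!
Structure of groups of order `s ^ 2` with three subgroups of order `s` which pairwise intersect
trivially, at the primes which are small and divide `s` only once.
-/

set_option autoImplicit false

namespace Pool.Agent.Results.MP_53dcbc_co.MetabelianPart

open Subgroup
open scoped commutatorElement
open Pool.Agent.Helper354.Pcp

universe u

theorem result (s : ℕ) (hs : 0 < s) (G : Type u) [Group G] (hG : Nat.card G = s ^ 2)
    (U : Fin 3 → Subgroup G) (hU : ∀ i, Nat.card (U i) = s)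
    (hd : ∀ i j, i ≠ j → U i ⊓ U j = ⊥) (n : ℕ)
    (hn : ∀ p, p.Prime → p ≤ n → ¬ p ^ 2 ∣ s) :
    ∃ (K : Subgroup G) (m t : ℕ), K.Normal ∧ s = m * t ∧
      (∀ p, p.Prime → p ∣ m → p ≤ n) ∧ (∀ p, p.Prime → p ∣ t → n < p) ∧
      Nat.card K = t ^ 2 ∧ (∀ i, Nat.card (U i ⊓ K : Subgroup G) = t) ∧
      derivedSeries G 2 ≤ K := by
  have hfin : Finite G := Nat.finite_of_card_ne_zero (by rw [hG]; positivity)
  obtain ⟨K, hK, m, t, hmt, hm, ht, hKc, hKU, -⟩ := main n s hs hn G hG U hU hd
  refine ⟨K, m, t, hK, hmt, hm, ht, hKc, hKU, ?_⟩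
  have hm0 : 0 < m := by
    rcases Nat.eq_zero_or_pos m with h | h
    · rw [h] at hmt; omega
    · exact h
  have ht0 : 0 < t := by
    rcases Nat.eq_zero_or_pos t with h | h
    · rw [h] at hmt; omega
    · exact h
  have hmsq : Squarefree m := by
    rw [Nat.squarefree_iff_prime_squarefree]
    intro p hp h
    exact hn p hp (hm p hp ((dvd_mul_right p p).trans h))
      (by rw [sq, hmt]; exact h.trans (dvd_mul_right _ _))
  have hKi : K.index = m ^ 2 := by
    have h1 := K.card_mul_index
    rw [hKc, hG, hmt, mul_pow, mul_comm (m ^ 2)] at h1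
    exact Nat.eq_of_mul_eq_mul_left (by positivity) h1
  have hGK : Nat.card (G ⧸ K) = m ^ 2 := hKi
  have hUK : ∀ i, Nat.card ((U i).map (QuotientGroup.mk' K)) = m := by
    intro i
    rw [← Subgroup.relIndex_ker, QuotientGroup.ker_mk']
    have h1 : Nat.card (K.subgroupOf (U i)) = t := by
      rw [← Subgroup.card_map_of_injective (K := K.subgroupOf (U i)) (U i).subtype_injective,
        Subgroup.subgroupOf_map_subtype, inf_comm, hKU i]
    have h2 := (K.subgroupOf (U i)).card_mul_index
    rw [h1, hU i, hmt, mul_comm m t] at h2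
    exact Nat.eq_of_mul_eq_mul_left ht0 h2
  have hdK : ∀ i j, i ≠ j →
      (U i).map (QuotientGroup.mk' K) ⊓ (U j).map (QuotientGroup.mk' K) = ⊥ := by
    intro i j hij
    have h1 := card_prod ((U i).map (QuotientGroup.mk' K)) ((U j).map (QuotientGroup.mk' K)) (by
      intro g
      obtain ⟨g, rfl⟩ := QuotientGroup.mk'_surjective K g
      obtain ⟨x, hx, y, hy, rfl⟩ := fac_of_pcp (A := U i) (B := U j)
        (by rw [hU i, hU j, hG, sq]) (hd i j hij) g
      exact ⟨_, ⟨x, hx, rfl⟩, _, ⟨y, hy, rfl⟩, map_mul _ _ _⟩)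
    rw [hUK i, hUK j, hGK, ← sq] at h1
    apply Subgroup.card_eq_one.1
    have h2 : 0 < m ^ 2 := by positivity
    exact (Nat.eq_of_mul_eq_mul_right h2 (by rw [one_mul]; exact h1)).symm
  have hmet := metab m hm0 hmsq (G ⧸ K) hGK (fun i => (U i).map (QuotientGroup.mk' K)) hUK hdK
  have hmap : ∀ z ∈ commutator G, QuotientGroup.mk' K z ∈ commutator (G ⧸ K) := by
    have h1 : commutator G ≤ (commutator (G ⧸ K)).comap (QuotientGroup.mk' K) := by
      rw [commutator_def, Subgroup.commutator_le]
      intro g _ h _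
      show QuotientGroup.mk' K ⁅g, h⁆ ∈ commutator (G ⧸ K)
      rw [map_commutatorElement, commutator_def]
      exact Subgroup.commutator_mem_commutator (mem_top _) (mem_top _)
    intro z hz
    exact h1 hz
  have h1 : derivedSeries G 1 = commutator G := derivedSeries_one G
  rw [derivedSeries_succ, h1, Subgroup.commutator_le]
  intro x hx y hy
  rw [← QuotientGroup.eq_one_iff]
  have h2 : QuotientGroup.mk' K ⁅x, y⁆ = 1 := by
    rw [map_commutatorElement]
    exact commutatorElement_eq_one_iff_mul_comm.2 (hmet _ (hmap x hx) _ (hmap y hy))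
  exact h2

end Pool.Agent.Results.MP_53dcbc_co.MetabelianPart
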