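import Mathlib
import Pool.Agent.Helper354.Pcp.Build
import Pool.Agent.Helper354.Pcp.Key
import Pool.Agent.Helper354.Pcp.Rigid

/-!
Complete answer for `s = p q` with primes `p < q`: which groups of order `(p q) ^ 2` have three
subgroups of order `p q` with pairwise trivial intersections.
-/

set_option autoImplicit false

namespace Pool.Agent.Results.MP_53dcbc_co.OrderPPQQ

open Subgroup
open scoped commutatorElement
open Pool.Agent.Helper354.Pcp

universe u

theorem lines' {V : Type u} [hV : Group V] [Finite V] (hVm : ∀ x y : V, x * y = y * x)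
    {p q : ℕ} (hp : p.Prime) [hq : Fact q.Prime] (hVc : Nat.card V = q ^ 2)
    (hVe : ∀ x : V, x ^ q = 1) {P : Type u} [hP : Group P] [Finite P]
    (hPm : ∀ x y : P, x * y = y * x) (hPc : Nat.card P = p ^ 2) (hPe : ∀ g : P, g ^ p = 1)
    (hpq : p ∣ q - 1) (ρ : P →* MulAut V) :
    ∃ (a b : V) (c : P), a ≠ 1 ∧ b ≠ 1 ∧ zpowers a ⊓ zpowers b = ⊥ ∧
      (∀ g, ρ g a ∈ zpowers a) ∧ (∀ g, ρ g b ∈ zpowers b) ∧ c ≠ 1 ∧
      ρ c (a * b) ∈ zpowers (a * b) := by
  let i1 : CommGroup V := { hV with mul_comm := hVm }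
  let i2 : CommGroup P := { hP with mul_comm := hPm }
  exact @lines V i1 _ p q hp hq hVc hVe P i2 _ hPc hPe hpq ρ

theorem third {H : Type u} [Group H] {r : ℕ} (hr : r.Prime) (c d : H) (hcd : Commute c d)
    (hc : orderOf c = r) (hd : orderOf d = r) (hi : zpowers c ⊓ zpowers d = ⊥) :
    orderOf (c * d) = r ∧ zpowers c ⊓ zpowers (c * d) = ⊥ ∧ zpowers d ⊓ zpowers (c * d) = ⊥ := by
  have h1 : (c * d) ^ r = 1 := by
    rw [hcd.mul_pow, ← hc, pow_orderOf_eq_one, hc, ← hd, pow_orderOf_eq_one, one_mul]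
  have hc1 : c ≠ 1 := by
    rintro rfl; rw [orderOf_one] at hc; exact hr.one_lt.ne hc
  have hd1 : d ≠ 1 := by
    rintro rfl; rw [orderOf_one] at hd; exact hr.one_lt.ne hd
  have h2 : c * d ∉ zpowers c := by
    intro h
    have h3 : d ∈ zpowers c := by
      have : d = c⁻¹ * (c * d) := by group
      rw [this]
      exact mul_mem (inv_mem (mem_zpowers c)) h
    have h4 : d ∈ zpowers c ⊓ zpowers d := ⟨h3, mem_zpowers d⟩
    rw [hi, mem_bot] at h4
    exact hd1 h4
  have h3 : c * d ∉ zpowers d := by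
    intro h
    have h3 : c ∈ zpowers d := by
      have : c = (c * d) * d⁻¹ := by group
      rw [this]
      exact mul_mem h (inv_mem (mem_zpowers d))
    have h4 : c ∈ zpowers c ⊓ zpowers d := ⟨mem_zpowers c, h3⟩
    rw [hi, mem_bot] at h4
    exact hc1 h4
  have h4 : c * d ≠ 1 := by
    intro h; apply h2; rw [h]; exact one_mem _
  have h5 := order_eq hr (c * d) h1 h4
  exact ⟨h5, zpowers_inf_bot hr c (c * d) hc h5 h2, zpowers_inf_bot hr d (c * d) hd h5 h3⟩

theorem coe_inf_bot {G : Type u} [Group G] (H : Subgroup G) (a b : H)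
    (h : zpowers a ⊓ zpowers b = ⊥) : zpowers (a : G) ⊓ zpowers (b : G) = ⊥ := by
  rw [eq_bot_iff]
  rintro z ⟨hz1, hz2⟩
  obtain ⟨m, hm⟩ := mem_zpowers_iff.1 hz1
  obtain ⟨n, hn⟩ := mem_zpowers_iff.1 hz2
  have h1 : a ^ m = b ^ n := by
    apply Subtype.ext
    rw [Subgroup.coe_zpow, Subgroup.coe_zpow, hm, hn]
  have h2 : a ^ m ∈ zpowers a ⊓ zpowers b :=
    ⟨zpow_mem (mem_zpowers a) m, by rw [h1]; exact zpow_mem (mem_zpowers b) n⟩
  rw [h, mem_bot] at h2
  rw [mem_bot, ← hm, ← Subgroup.coe_zpow, h2, Subgroup.coe_one]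

theorem backward (p q : ℕ) (hp : p.Prime) (hq : q.Prime) (hlt : p < q) (G : Type u) [Group G]
    [Finite G] (hG : Nat.card G = (p * q) ^ 2) (hexp : ∀ x : G, x ^ (p * q) = 1)
    (Q : Subgroup G) (hQn : Q.Normal) (hQ2 : Nat.card Q = q ^ 2)
    (hor : (∀ x y : G, x * y = y * x) ∨ p ∣ q - 1) :
    ∃ U : Fin 3 → Subgroup G, (∀ i, Nat.card (U i) = p * q) ∧ ∀ i j, i ≠ j → U i ⊓ U j = ⊥ := by
  have : Fact p.Prime := ⟨hp⟩
  have : Fact q.Prime := ⟨hq⟩
  have hpq : ¬ p ∣ q := fun h => by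
    have := (Nat.prime_dvd_prime_iff_eq hp hq).1 h
    omega
  have hcop : Nat.Coprime p q := hp.coprime_iff_not_dvd.2 hpq
  obtain P' : Sylow p G := default
  obtain ⟨P, hPP⟩ : ∃ P : Subgroup G, P = (P' : Subgroup G) := ⟨_, rfl⟩
  have hP : Nat.card P = p ^ 2 := by
    rw [hPP, Sylow.card_eq_multiplicity, hG, Nat.factorization_pow,
      Nat.factorization_mul hp.ne_zero hq.ne_zero]
    congr 1
    simp [hp.factorization_self, Nat.factorization_eq_zero_of_not_dvd hpq]
  have hPQ : P ⊓ Q = ⊥ := by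
    apply Subgroup.inf_eq_bot_of_coprime
    rw [hP, hQ2]
    exact Nat.Coprime.pow _ _ hcop
  have hPm : ∀ x y : P, x * y = y * x :=
    (IsPGroup.isMulCommutative_of_card_eq_prime_sq hP).is_comm.comm
  have hQm : ∀ x y : Q, x * y = y * x :=
    (IsPGroup.isMulCommutative_of_card_eq_prime_sq hQ2).is_comm.comm
  have hPe : ∀ g : P, g ^ p = 1 := by
    intro g
    have h1 : orderOf g ∣ p ^ 2 := by rw [← hP]; exact orderOf_dvd_natCard g
    have h2 : orderOf g ∣ p * q := by
      apply orderOf_dvd_of_pow_eq_one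
      apply Subtype.ext
      exact hexp g
    have h3 : orderOf g ∣ p := by
      have h4 : Nat.Coprime (orderOf g) q :=
        Nat.Coprime.coprime_dvd_left h1 (Nat.Coprime.pow_left 2 hcop)
      exact h4.dvd_of_dvd_mul_right h2
    exact orderOf_dvd_iff_pow_eq_one.1 h3
  have hQe : ∀ g : Q, g ^ q = 1 := by
    intro g
    have h1 : orderOf g ∣ q ^ 2 := by rw [← hQ2]; exact orderOf_dvd_natCard g
    have h2 : orderOf g ∣ p * q := by
      apply orderOf_dvd_of_pow_eq_one
      apply Subtype.ext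
      exact hexp g
    have h3 : orderOf g ∣ q := by
      have h4 : Nat.Coprime (orderOf g) p :=
        Nat.Coprime.coprime_dvd_left h1 (Nat.Coprime.pow_left 2 hcop.symm)
      exact h4.dvd_of_dvd_mul_left h2
    exact orderOf_dvd_iff_pow_eq_one.1 h3
  -- the lines
  obtain ⟨a, b, c, ha, hb, hab, hga, hgb, hc, hcab⟩ : ∃ (a b : Q) (c : P), a ≠ 1 ∧ b ≠ 1 ∧
      zpowers a ⊓ zpowers b = ⊥ ∧
      (∀ g : P, (g : G) * a * (g : G)⁻¹ ∈ zpowers (a : G)) ∧
      (∀ g : P, (g : G) * b * (g : G)⁻¹ ∈ zpowers (b : G)) ∧ c ≠ 1 ∧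
      (c : G) * (a * b) * (c : G)⁻¹ ∈ zpowers ((a : G) * b) := by
    rcases hor with hab | hdvd
    · have hQnt : Nontrivial Q := by
        rw [← Finite.one_lt_card_iff_nontrivial, hQ2]
        exact Nat.one_lt_pow (by norm_num) hq.one_lt
      have hPnt : Nontrivial P := by
        rw [← Finite.one_lt_card_iff_nontrivial, hP]
        exact Nat.one_lt_pow (by norm_num) hp.one_lt
      obtain ⟨a, ha⟩ := exists_ne (1 : Q)
      obtain ⟨c, hc⟩ := exists_ne (1 : P)
      obtain ⟨b, hb, hi⟩ := exists_indep hq hQ2 hQe a ha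
      have hcj : ∀ g x : G, g * x * g⁻¹ ∈ zpowers x := by
        intro g x
        rw [hab g x]
        have : x * g * g⁻¹ = x := by group
        rw [this]
        exact mem_zpowers x
      exact ⟨a, b, c, ha, hb, hi, fun g => hcj _ _, fun g => hcj _ _, hc, hcj _ _⟩
    · obtain ⟨a, b, c, ha, hb, hab, hga, hgb, hc, hcab⟩ :=
        lines' hQm hp hQ2 hQe hPm hP hPe hdvd ((MulAut.conjNormal (H := Q)).comp P.subtype)
      have hco : ∀ (g : P) (x : Q),
          ((MulAut.conjNormal (H := Q)).comp P.subtype) g x ∈ zpowers x →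
          (g : G) * x * (g : G)⁻¹ ∈ zpowers (x : G) := by
        intro g x hx
        obtain ⟨m, hm⟩ := mem_zpowers_iff.1 hx
        have h1 := congrArg Subtype.val hm
        have h2 : ((((MulAut.conjNormal (H := Q)).comp P.subtype) g x : Q) : G) =
            (g : G) * x * (g : G)⁻¹ := MulAut.conjNormal_apply _ _
        rw [h2, Subgroup.coe_zpow] at h1
        rw [← h1]
        exact zpow_mem (mem_zpowers _) m
      refine ⟨a, b, c, ha, hb, hab, fun g => hco g a (hga g), fun g => hco g b (hgb g), hc, ?_⟩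
      exact hco c (a * b) hcab
  obtain ⟨d, hd, hcd⟩ := exists_indep hp hP hPe c hc
  have hao := order_eq hq a (hQe a) ha
  have hbo := order_eq hq b (hQe b) hb
  have hcO := order_eq hp c (hPe c) hc
  have hdO := order_eq hp d (hPe d) hd
  obtain ⟨habo, hi1, hi2⟩ := third hq a b (hQm a b) hao hbo hab
  obtain ⟨hcdo, hj1, hj2⟩ := third hp c d (hPm c d) hcO hdO hcd
  have a01 := coe_inf_bot Q a b hab
  have a02 := coe_inf_bot Q a (a * b) hi1
  have a12 := coe_inf_bot Q b (a * b) hi2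
  have c02 := coe_inf_bot P c d hcd
  have c12 := coe_inf_bot P c (c * d) hj1
  have c01 := coe_inf_bot P d (c * d) hj2
  have a10 : zpowers (b : G) ⊓ zpowers (a : G) = ⊥ := by rw [inf_comm]; exact a01
  have a20 : zpowers ((a * b : Q) : G) ⊓ zpowers (a : G) = ⊥ := by rw [inf_comm]; exact a02
  have a21 : zpowers ((a * b : Q) : G) ⊓ zpowers (b : G) = ⊥ := by rw [inf_comm]; exact a12
  have c20 : zpowers (d : G) ⊓ zpowers (c : G) = ⊥ := by rw [inf_comm]; exact c02
  have c21 : zpowers ((c * d : P) : G) ⊓ zpowers (c : G) = ⊥ := by rw [inf_comm]; exact c12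
  have c10 : zpowers ((c * d : P) : G) ⊓ zpowers (d : G) = ⊥ := by rw [inf_comm]; exact c01
  refine build P Q hPQ (p := p) (q := q) ![(a : G), (b : G), ((a * b : Q) : G)]
    ![(d : G), ((c * d : P) : G), (c : G)] ?_ ?_ ?_ ?_ ?_ ?_ ?_
  · intro i
    fin_cases i
    · exact a.2
    · exact b.2
    · exact (a * b).2
  · intro i
    fin_cases i
    · exact d.2
    · exact (c * d).2
    · exact c.2
  · intro i
    fin_cases i
    · show orderOf (a : G) = q
      rw [Subgroup.orderOf_coe]; exact hao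
    · show orderOf (b : G) = q
      rw [Subgroup.orderOf_coe]; exact hbo
    · show orderOf ((a * b : Q) : G) = q
      rw [Subgroup.orderOf_coe]; exact habo
  · intro i
    fin_cases i
    · show orderOf (d : G) = p
      rw [Subgroup.orderOf_coe]; exact hdO
    · show orderOf ((c * d : P) : G) = p
      rw [Subgroup.orderOf_coe]; exact hcdo
    · show orderOf (c : G) = p
      rw [Subgroup.orderOf_coe]; exact hcO
  · intro i j hij
    fin_cases i <;> fin_cases j <;>
      first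
        | exact absurd rfl hij
        | exact a01
        | exact a02
        | exact a12
        | exact a10
        | exact a20
        | exact a21
  · intro i j hij
    fin_cases i <;> fin_cases j <;>
      first
        | exact absurd rfl hij
        | exact c01
        | exact c20
        | exact c21
        | exact c10
        | exact c02
        | exact c12
  · intro i
    fin_cases i
    · exact hga d
    · exact hgb (c * d)
    · exact hcab

theorem forward (p q : ℕ) (hp : p.Prime) (hq : q.Prime) (hlt : p < q) (G : Type u) [Group G]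
    [Finite G] (hG : Nat.card G = (p * q) ^ 2)
    (U : Fin 3 → Subgroup G) (hU : ∀ i, Nat.card (U i) = p * q)
    (hd : ∀ i j, i ≠ j → U i ⊓ U j = ⊥) :
    (∀ x : G, x ^ (p * q) = 1) ∧ (∃ Q : Subgroup G, Q.Normal ∧ Nat.card Q = q ^ 2) ∧
      ((∀ x y : G, x * y = y * x) ∨ p ∣ q - 1) := by
  have : Fact p.Prime := ⟨hp⟩
  have : Fact q.Prime := ⟨hq⟩
  have hpq : ¬ p ∣ q := fun h => by
    have := (Nat.prime_dvd_prime_iff_eq hp hq).1 h
    omega
  have hqp : ¬ q ∣ p := fun h => by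
    have := (Nat.prime_dvd_prime_iff_eq hq hp).1 h
    omega
  obtain ⟨Q, hQn, hQ2, hQi, hQU⟩ := step (s := p * q) rfl hpq (by
    intro r hr h
    rcases hr.dvd_mul.1 h with h | h
    · exact ((Nat.prime_dvd_prime_iff_eq hr hp).1 h).ge
    · exact ((Nat.prime_dvd_prime_iff_eq hr hq).1 h) ▸ hlt.le) hG U hU hd
  have hqi : ¬ q ∣ Q.index := by
    rw [hQi]; intro h; exact hqp (hq.dvd_of_dvd_pow h)
  have hfac : ∀ i j, i ≠ j → ∀ g : G, ∃ x ∈ U i, ∃ y ∈ U j, g = x * y := fun i j hij =>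
    fac_of_pcp (by rw [hU i, hU j, hG, sq]) (hd i j hij)
  have hGQ : Nat.card (G ⧸ Q) = p ^ 2 := hQi
  have hUQ : ∀ i, Nat.card ((U i).map (QuotientGroup.mk' Q)) = p := by
    intro i
    rw [← Subgroup.relIndex_ker, QuotientGroup.ker_mk']
    have h1 : Nat.card (Q.subgroupOf (U i)) = q := by
      rw [← Subgroup.card_map_of_injective (K := Q.subgroupOf (U i)) (U i).subtype_injective,
        Subgroup.subgroupOf_map_subtype, inf_comm, hQU i]
    have h2 := (Q.subgroupOf (U i)).card_mul_index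
    rw [h1, hU i, mul_comm p q] at h2
    exact Nat.eq_of_mul_eq_mul_left hq.pos h2
  have hdQ : (U 0).map (QuotientGroup.mk' Q) ⊓ (U 1).map (QuotientGroup.mk' Q) = ⊥ := by
    have h1 := card_prod ((U 0).map (QuotientGroup.mk' Q)) ((U 1).map (QuotientGroup.mk' Q)) (by
      intro g
      obtain ⟨g, rfl⟩ := QuotientGroup.mk'_surjective Q g
      obtain ⟨x, hx, y, hy, rfl⟩ := hfac 0 1 (by decide) g
      exact ⟨_, ⟨x, hx, rfl⟩, _, ⟨y, hy, rfl⟩, map_mul _ _ _⟩)
    rw [hUQ 0, hUQ 1, hGQ, ← sq] at h1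
    apply Subgroup.card_eq_one.1
    have h2 : 0 < p ^ 2 := pow_pos hp.pos 2
    exact (Nat.eq_of_mul_eq_mul_right h2 (by rw [one_mul]; exact h1)).symm
  have hcU : ∀ (H L : Subgroup G), Nat.card (H.subgroupOf L) = Nat.card (H ⊓ L : Subgroup G) := by
    intro H L
    rw [← Subgroup.card_map_of_injective (K := H.subgroupOf L) L.subtype_injective,
      Subgroup.subgroupOf_map_subtype]
  have hexp : ∀ x : G, x ^ (p * q) = 1 := by
    intro x
    have h1 := exp_lemma hGQ _ _ (hUQ 0) (hUQ 1) hdQ (QuotientGroup.mk x)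
    rw [← QuotientGroup.mk_pow, QuotientGroup.eq_one_iff] at h1
    have h2 := exp_lemma (r := q) hQ2 ((U 0).subgroupOf Q) ((U 1).subgroupOf Q)
      (by rw [hcU, hQU 0]) (by rw [hcU, hQU 1]) (by
        have h3 : (U 0).subgroupOf Q ⊓ (U 1).subgroupOf Q = (U 0 ⊓ U 1).subgroupOf Q := rfl
        rw [h3, hd 0 1 (by decide), Subgroup.bot_subgroupOf]) ⟨_, h1⟩
    have h3 := congrArg Subtype.val h2
    rw [pow_mul]
    exact h3
  refine ⟨hexp, ⟨Q, hQn, hQ2⟩, ?_⟩
  by_cases hdvd : p ∣ q - 1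
  · exact Or.inr hdvd
  left
  have hcen : ∀ g : G, ∀ x ∈ Q, Commute g x := by
    intro g x hx
    obtain ⟨u, hu, v, hv, rfl⟩ := hfac 0 1 (by decide) g
    exact (cent Q (U 0) hp hQ2 hqi (hU 0) (hQU 0) hdvd u hu x hx).mul_left
      (cent Q (U 1) hp hQ2 hqi (hU 1) (hQU 1) hdvd v hv x hx)
  have hQp : IsPGroup q Q := IsPGroup.of_card hQ2
  have hGQm := (IsPGroup.isMulCommutative_of_card_eq_prime_sq hGQ).is_comm.comm
  intro x y
  have h1 : ⁅x, y⁆ ∈ Q := by
    rw [← QuotientGroup.eq_one_iff]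
    have h2 : QuotientGroup.mk' Q ⁅x, y⁆ = 1 := by
      rw [map_commutatorElement]
      exact commutatorElement_eq_one_iff_mul_comm.2 (hGQm _ _)
    exact h2
  have h2 : Commute x ⁅x, y⁆ := hcen x _ h1
  have h3 : Commute (x ^ Q.index) y := (hcen y _ (Q.pow_index_mem x)).symm
  have h4 := pow_trivial x y h2 Q.index h3
  have h5 := eq_one_of_pow Q hQp _ hqi _ h1 h4
  exact commutatorElement_eq_one_iff_mul_comm.1 h5

theorem result (p q : ℕ) (hp : p.Prime) (hq : q.Prime) (hlt : p < q)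
    (G : Type u) [Group G] (hG : Nat.card G = (p * q) ^ 2) :
    (∃ U : Fin 3 → Subgroup G, (∀ i, Nat.card (U i) = p * q) ∧ ∀ i j, i ≠ j → U i ⊓ U j = ⊥) ↔
      (∀ x : G, x ^ (p * q) = 1) ∧ (∃ Q : Subgroup G, Q.Normal ∧ Nat.card Q = q ^ 2) ∧
        ((∀ x y : G, x * y = y * x) ∨ p ∣ q - 1) := by
  have hfin : Finite G := Nat.finite_of_card_ne_zero (by
    rw [hG]; exact pow_ne_zero _ (mul_ne_zero hp.ne_zero hq.ne_zero))
  constructor
  · rintro ⟨U, hU, hd⟩
    exact forward p q hp hq hlt G hG U hU hd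
  · rintro ⟨hexp, ⟨Q, hQn, hQ2⟩, hor⟩
    exact backward p q hp hq hlt G hG hexp Q hQn hQ2 hor

end Pool.Agent.Results.MP_53dcbc_co.OrderPPQQ
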